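import Pool.Agent.DB.Defs

/-!
# DB-G-Pl: formulas for the points `pl w N h` and the walks `armPt`
-/

set_option autoImplicit false

namespace Pool.Agent.DB

open Set

theorem pl_eq {V : Type} [DecidableEq V] (w : ℕ → V) (N n : ℕ) (hn : n < N) (t : ℝ) (h0 : 0 ≤ t)
    (h1 : t ≤ 1) : pl w N (n + t) = (1 - t) • ev (w n) + t • ev (w (n + 1)) := by
  have hsub : ({n, n + 1} : Finset ℕ) ⊆ Finset.range (N + 1) := by
    intro j hj
    rw [Finset.mem_insert, Finset.mem_singleton] at hj
    rw [Finset.mem_range]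
    omega
  unfold pl
  rw [← Finset.sum_subset hsub]
  · rw [Finset.sum_pair (by omega)]
    have e1 : max 0 (1 - |(n : ℝ) + t - (n : ℕ)|) = 1 - t := by
      rw [show (n : ℝ) + t - (n : ℕ) = t by ring, abs_of_nonneg h0, max_eq_right (by linarith)]
    have e2 : max 0 (1 - |(n : ℝ) + t - ((n + 1 : ℕ) : ℝ)|) = t := by
      rw [show (n : ℝ) + t - ((n + 1 : ℕ) : ℝ) = t - 1 by push_cast; ring,
        abs_of_nonpos (by linarith), max_eq_right (by linarith)]
      ring
    rw [e1, e2]
  · intro j _ hj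
    rw [Finset.mem_insert, Finset.mem_singleton, not_or] at hj
    have h2 : max 0 (1 - |(n : ℝ) + t - (j : ℕ)|) = 0 := by
      apply max_eq_left
      rcases lt_or_gt_of_ne hj.1 with h | h
      · have h3 : (j : ℝ) + 1 ≤ n := by exact_mod_cast h
        have h4 : (1 : ℝ) ≤ |(n : ℝ) + t - (j : ℕ)| := by
          refine le_trans ?_ (le_abs_self _)
          linarith
        linarith
      · have h5 : n + 2 ≤ j := by omega
        have h3 : (n : ℝ) + 2 ≤ j := by exact_mod_cast h5
        have h4 : (1 : ℝ) ≤ |(n : ℝ) + t - (j : ℕ)| := by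
          refine le_trans ?_ (neg_le_abs _)
          linarith
        linarith
    rw [h2, zero_smul]

theorem pl_zero {V : Type} [DecidableEq V] (w : ℕ → V) (N : ℕ) : pl w N 0 = ev (w 0) := by
  unfold pl
  rw [Finset.sum_eq_single 0]
  · simp
  · intro j _ hj
    have h1 : (1 : ℝ) ≤ j := by
      have : 1 ≤ j := by omega
      exact_mod_cast this
    have h2 : max 0 (1 - |(0 : ℝ) - (j : ℕ)|) = 0 := by
      apply max_eq_left
      rw [zero_sub, abs_neg, abs_of_nonneg (by linarith)]
      linarith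
    rw [h2, zero_smul]
  · intro h
    exact absurd (Finset.mem_range.2 (by omega)) h

/-- every height is on an edge -/
theorem pl_mem {V : Type} [DecidableEq V] (w : ℕ → V) (N : ℕ) (hN : 0 < N) (h : ℝ) (h0 : 0 ≤ h)
    (h1 : h ≤ N) : ∃ (n : ℕ) (t : ℝ), n < N ∧ 0 ≤ t ∧ t ≤ 1 ∧ h = n + t := by
  rcases eq_or_lt_of_le h1 with h2 | h2
  · refine ⟨N - 1, 1, by omega, by norm_num, le_refl _, ?_⟩
    rw [h2]
    have : 1 ≤ N := hN
    push_cast [this]
    ring
  · refine ⟨⌊h⌋₊, h - ⌊h⌋₊, (Nat.floor_lt h0).2 h2, ?_, ?_, by ring⟩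
    · linarith [Nat.floor_le h0]
    · linarith [Nat.lt_floor_add_one h]

private theorem pl_ray_zero (M : Model) (x : M.V) (hx : x ∈ M.B) (m : ℕ) :
    pl (M.ray x m) M.L 0 = ev x := by
  rw [pl_zero, M.ray_zero x hx]

private theorem hgt_early (M : Model) (x : M.V) (E m : ℕ) (hm : m < E) (u : ℝ)
    (h : u ≤ m) : M.hgt x E m u = 0 := by
  unfold Model.hgt
  rw [if_pos hm]
  have h2 : max 0 (1 - |2 * (u - m) - 1|) = 0 := by
    apply max_eq_left
    have : (1 : ℝ) ≤ |2 * (u - m) - 1| := by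
      refine le_trans ?_ (neg_le_abs _)
      linarith
    linarith
  rw [h2, mul_zero]

private theorem hgt_late (M : Model) (x : M.V) (E m : ℕ) (hm : m < E) (u : ℝ)
    (h : (m : ℝ) + 1 ≤ u) : M.hgt x E m u = 0 := by
  unfold Model.hgt
  rw [if_pos hm]
  have h2 : max 0 (1 - |2 * (u - m) - 1|) = 0 := by
    apply max_eq_left
    have : (1 : ℝ) ≤ |2 * (u - m) - 1| := by
      refine le_trans ?_ (le_abs_self _)
      linarith
    linarith
  rw [h2, mul_zero]

private theorem armPt_single (M : Model) (x : M.V) (hx : x ∈ M.B) (E m : ℕ) (hm : m < E + 1)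
    (u : ℝ) (H : ∀ m', m' < E + 1 → m' ≠ m → M.hgt x E m' u = 0) :
    M.armPt x E (u / (E + 1)) = pl (M.ray x m) M.L (M.hgt x E m u) := by
  have hE : ((E : ℝ) + 1) ≠ 0 := by positivity
  unfold Model.armPt
  rw [mul_div_cancel₀ _ hE, Finset.sum_eq_single m]
  · abel
  · intro m' hm' hne
    rw [H m' (Finset.mem_range.1 hm') hne, pl_ray_zero M x hx, sub_self]
  · intro h
    exact absurd (Finset.mem_range.2 hm) h

theorem armPt_exc (M : Model) (x : M.V) (hx : x ∈ M.B) (E m : ℕ) (hm : m < E) (u : ℝ)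
    (h0 : m ≤ u) (h1 : u ≤ m + 1) :
    M.armPt x E (u / (E + 1)) =
      pl (M.ray x m) M.L ((M.code x E m : ℝ) * max 0 (1 - |2 * (u - m) - 1|)) := by
  rw [armPt_single M x hx E m (by omega) u]
  · unfold Model.hgt
    rw [if_pos hm]
  · intro m' hm' hne
    rcases lt_or_gt_of_ne hne with h | h
    · apply hgt_late M x E m' (by omega)
      have : (m' : ℝ) + 1 ≤ m := by exact_mod_cast h
      linarith
    · have h3 : (m : ℝ) + 1 ≤ m' := by exact_mod_cast h
      rcases Nat.lt_or_ge m' E with h2 | h2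
      · exact hgt_early M x E m' h2 u (by linarith)
      · have h4 : m' = E := by omega
        unfold Model.hgt
        rw [if_neg (by omega)]
        apply max_eq_left
        rw [← h4]
        linarith

theorem armPt_exit (M : Model) (x : M.V) (hx : x ∈ M.B) (E : ℕ) (u : ℝ)
    (h0 : E ≤ u) : M.armPt x E (u / (E + 1)) = pl (M.ray x E) M.L (u - E) := by
  rw [armPt_single M x hx E E (by omega) u]
  · unfold Model.hgt
    rw [if_neg (by omega), max_eq_right (by linarith)]
  · intro m' hm' hne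
    have h2 : m' < E := by omega
    apply hgt_late M x E m' h2
    have : (m' : ℝ) + 1 ≤ E := by exact_mod_cast h2
    linarith

theorem armPt_zero (M : Model) (x : M.V) (hx : x ∈ M.B) (E : ℕ) (hE : 0 < E) :
    M.armPt x E 0 = ev x := by
  have h := armPt_exc M x hx E 0 hE 0 (by simp) (by simp)
  rw [zero_div] at h
  rw [h]
  have h2 : max 0 (1 - |2 * ((0 : ℝ) - ((0 : ℕ) : ℝ)) - 1|) = 0 := by
    norm_num
  rw [h2, mul_zero, pl_ray_zero M x hx]

private theorem one_le_L (M : Model) (x : M.V) (hx : x ∈ M.B) : 1 ≤ M.L := by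
  have h1 := M.long x hx
  have h2 := M.three_le x hx
  have h3 : 1 ≤ (M.d x ^ 2 + M.d x + 1) * M.d x :=
    Nat.one_le_iff_ne_zero.2 (Nat.mul_ne_zero (by omega) (by omega))
  omega

private theorem ray_one_ne (M : Model) (x : M.V) (hx : x ∈ M.B) (m : ℕ) : M.ray x m 1 ≠ x := by
  intro h
  have h2 := M.ray_zero x hx m
  have h3 := (M.ray_inj x hx m 1 m 0 (one_le_L M x hx) (Nat.zero_le _) (by rw [h, h2])).1
  omega

private theorem ev_self {V : Type} [DecidableEq V] (a : V) : ev a a = 1 := by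
  simp [ev]

private theorem ev_ne {V : Type} [DecidableEq V] {a b : V} (h : b ≠ a) : ev a b = 0 := by
  simp [ev, h]

theorem f_first (M : Model) (x : M.V) (hx : x ∈ M.B) (E : ℕ) (hE : M.K x + 1 ≤ E)
    (hE' : E ≤ M.K x + M.d x) (s : ℝ) (h0 : 0 ≤ s) (h1 : s < 1) :
    M.f x ((1 - s) • ev x + s • ev (M.ray x E 1)) = M.armPt x E s := by
  have hL := one_le_L M x hx
  have hpx : ((1 - s) • ev x + s • ev (M.ray x E 1)) x = 1 - s := by
    rw [Pi.add_apply, Pi.smul_apply, Pi.smul_apply, ev_self, ev_ne (ray_one_ne M x hx E).symm]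
    simp
  have hne : ((1 - s) • ev x + s • ev (M.ray x E 1)) x ≠ 0 := by
    rw [hpx]
    linarith
  unfold Model.f
  rw [if_neg hne, Finset.sum_eq_single E]
  · have h2 : ((1 - s) • ev x + s • ev (M.ray x E 1)) (M.ray x E 1) = s := by
      rw [Pi.add_apply, Pi.smul_apply, Pi.smul_apply, ev_self, ev_ne (ray_one_ne M x hx E)]
      simp
    rw [h2]
    abel
  · intro E' hE2 hEE
    rw [Finset.mem_Icc] at hE2
    have h3 : M.ray x E' 1 ≠ M.ray x E 1 := by
      intro h
      rcases (M.ray_inj x hx E' 1 E 1 hL hL h).2 with h4 | h4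
      · omega
      · have h5 : (E' : ℤ) ≡ E [ZMOD M.d x] := (Int.natCast_modEq_iff).2 h4
        have h6 := h5.dvd
        have h7 : |(E : ℤ) - E'| < M.d x := by
          rw [abs_lt]
          constructor <;> omega
        have h8 := Int.eq_zero_of_abs_lt_dvd h6 h7
        omega
    have h2 : ((1 - s) • ev x + s • ev (M.ray x E 1)) (M.ray x E' 1) = 0 := by
      rw [Pi.add_apply, Pi.smul_apply, Pi.smul_apply, ev_ne h3, ev_ne (ray_one_ne M x hx E')]
      simp
    rw [h2, armPt_zero M x hx E' (by omega), sub_self]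
  · intro h
    exact absurd (Finset.mem_Icc.2 ⟨hE, hE'⟩) h

private theorem exists_arm (M : Model) (x : M.V) (hx : x ∈ M.B) (m : ℕ) (hm : m < M.d x) :
    ∃ E, M.K x + 1 ≤ E ∧ E ≤ M.K x + M.d x ∧ M.ray x m 1 = M.ray x E 1 := by
  have hK : M.K x = M.d x * M.d x := by
    unfold Model.K
    ring
  rcases Nat.eq_zero_or_pos m with h | h
  · refine ⟨M.K x + M.d x, by omega, le_refl _, M.ray_per x hx _ _ _ ?_⟩
    rw [h, hK]
    have : M.d x * M.d x + M.d x = 0 + M.d x * (M.d x + 1) := by ring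
    rw [this]
    exact (Nat.ModEq.symm (by simp [Nat.ModEq]))
  · refine ⟨M.K x + m, by omega, by omega, M.ray_per x hx _ _ _ ?_⟩
    rw [hK]
    exact (Nat.ModEq.symm (by simp [Nat.ModEq]))

/-- points of the realisation with `p x ≠ 0` are on a first edge of a ray of `x` -/
theorem model_cases (M : Model) (x : M.V) (hx : x ∈ M.B) (p : M.V → ℝ) (hp : p ∈ real M.G)
    (hpx : p x ≠ 0) : ∃ (E : ℕ) (s : ℝ), M.K x + 1 ≤ E ∧ E ≤ M.K x + M.d x ∧ 0 ≤ s ∧ s < 1 ∧
      p = (1 - s) • ev x + s • ev (M.ray x E 1) := by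
  have hd := M.three_le x hx
  obtain ⟨a, b, hab, t, ht0, ht1, rfl⟩ := hp
  rw [Pi.add_apply, Pi.smul_apply, Pi.smul_apply, smul_eq_mul, smul_eq_mul] at hpx
  rcases hab with rfl | hab
  · have ha : a = x := by
      by_contra h
      rw [ev_ne (fun h' => h h'.symm)] at hpx
      apply hpx
      ring
    subst ha
    refine ⟨M.K a + 1, 0, le_refl _, by omega, le_refl _, by norm_num, ?_⟩
    rw [← add_smul]
    simp
  · by_cases hax : a = x
    · subst hax
      obtain ⟨m, hm, rfl⟩ := M.nbr a hx b hab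
      obtain ⟨E, h1, h2, h3⟩ := exists_arm M a hx m hm
      refine ⟨E, t, h1, h2, ht0, ?_, by rw [h3]⟩
      rcases eq_or_lt_of_le ht1 with h | h
      · exfalso
        apply hpx
        rw [ev_ne (ray_one_ne M a hx m).symm, h]
        ring
      · exact h
    · have hbx : b = x := by
        by_contra h
        apply hpx
        rw [ev_ne (fun h' => h h'.symm), ev_ne (fun h' => hax h'.symm)]
        ring
      subst hbx
      obtain ⟨m, hm, rfl⟩ := M.nbr b hx a hab.symm
      obtain ⟨E, h1, h2, h3⟩ := exists_arm M b hx m hm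
      refine ⟨E, 1 - t, h1, h2, by linarith, ?_, ?_⟩
      · rcases eq_or_lt_of_le ht0 with h | h
        · exfalso
          apply hpx
          rw [ev_ne (fun h' => hax h'.symm), ← h]
          ring
        · linarith
      · rw [h3, add_comm, sub_sub_cancel]

end Pool.Agent.DB
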