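import Pool.Agent.Helper70.PL.Polar

/-!
# DB-G-Legs: homeomorphisms of the plane adapted to the star with legs `{pol d r m}`
-/

set_option autoImplicit false

namespace Pool.Agent.PL

open Set Filter Topology

variable {d : ℕ}

private noncomputable def wt (j : ℕ) (v : ℝ) : ℝ := max 0 (1 - |v - j|)

private theorem wt_nonneg (j : ℕ) (v : ℝ) : 0 ≤ wt j v := le_max_left _ _

private theorem wt_continuous (j : ℕ) : Continuous (wt j) := by
  unfold wt
  fun_prop

private theorem wt_sum (n : ℕ) {v : ℝ} (hv : 0 ≤ v) :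
    ∑ j ∈ Finset.range n, wt j v = min 1 (max 0 (n - v)) := by
  induction n with
  | zero =>
    rw [Finset.range_zero, Finset.sum_empty, max_eq_left (by simpa using hv)]
    norm_num
  | succ n ih =>
    rw [Finset.sum_range_succ, ih]
    unfold wt
    have hn : (0 : ℝ) ≤ n := Nat.cast_nonneg n
    push_cast
    rcases le_total v n with h | h
    · rw [abs_of_nonpos (by linarith)]
      rcases le_total (v + 1) n with h1 | h1
      · rw [max_eq_right (by linarith : (0 : ℝ) ≤ n - v), min_eq_left (by linarith),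
          max_eq_left (by linarith : 1 - -(v - n) ≤ (0 : ℝ)),
          max_eq_right (by linarith : (0 : ℝ) ≤ n + 1 - v), min_eq_left (by linarith)]
        ring
      · rw [max_eq_right (by linarith : (0 : ℝ) ≤ n - v), min_eq_right (by linarith),
          max_eq_right (by linarith : (0 : ℝ) ≤ 1 - -(v - n)),
          max_eq_right (by linarith : (0 : ℝ) ≤ n + 1 - v), min_eq_left (by linarith)]
        ring
    · rw [abs_of_nonneg (by linarith)]
      rw [max_eq_left (by linarith : (n : ℝ) - v ≤ 0), min_eq_right (by norm_num)]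
      rcases le_total v (n + 1) with h1 | h1
      · rw [max_eq_right (by linarith : (0 : ℝ) ≤ 1 - (v - n)),
          max_eq_right (by linarith : (0 : ℝ) ≤ n + 1 - v), min_eq_right (by linarith)]
        ring
      · rw [max_eq_left (by linarith : 1 - (v - n) ≤ (0 : ℝ)),
          max_eq_left (by linarith : (n : ℝ) + 1 - v ≤ 0), min_eq_right (by norm_num)]
        ring

private theorem wt_sum_one {v : ℝ} (hv : 0 ≤ v) (hv' : v ≤ d) :
    ∑ j ∈ Finset.range (d + 1), wt j v = 1 := by
  rw [wt_sum _ hv]
  push_cast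
  rw [max_eq_right (by linarith), min_eq_left (by linarith)]

private theorem wt_self (m : ℕ) : wt m m = 1 := by
  unfold wt
  simp

private theorem wt_ne {j m : ℕ} (h : j ≠ m) : wt j m = 0 := by
  unfold wt
  apply max_eq_left
  have h1 : (1 : ℝ) ≤ |(m : ℝ) - j| := by
    have h2 : (1 : ℤ) ≤ |(m : ℤ) - j| := Int.one_le_abs (by
      intro h3
      apply h
      omega)
    have h3 : ((1 : ℤ) : ℝ) ≤ ((|(m : ℤ) - j| : ℤ) : ℝ) := by exact_mod_cast h2
    simpa using h3
  linarith

private theorem wt_sum_nat {m : ℕ} (hm : m ≤ d) (c : ℕ → ℝ) :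
    ∑ j ∈ Finset.range (d + 1), wt j m * c j = c m := by
  rw [Finset.sum_eq_single m]
  · rw [wt_self, one_mul]
  · intro j _ hj
    rw [wt_ne hj, zero_mul]
  · intro h
    exact absurd (Finset.mem_range.2 (by omega)) h

private theorem pol_mod (hd : 0 < d) (r : ℝ) (m : ℕ) : pol d r m = pol d r ((m % d : ℕ) : ℝ) := by
  have h : (m : ℝ) = ((m % d : ℕ) : ℝ) + ((m / d : ℕ) : ℝ) * d := by
    have := Nat.mod_add_div m d
    rw [mul_comm] at this
    exact_mod_cast this.symm
  conv_lhs => rw [h]
  exact pol_add_nat hd r _ _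

/-- reparametrisation of the legs -/
theorem exists_legs (hd : 0 < d) (k : ℕ → ℝ → ℝ) (hk : ∀ j, Continuous (k j))
    (h0 : ∀ j, k j 0 = 0) (hmono : ∀ j, StrictMonoOn (k j) (Ici 0)) (C : ℝ)
    (hC : ∀ j r, 0 ≤ r → r - C ≤ k j r) :
    ∃ h : ℂ ≃ₜ ℂ, (∀ (m : ℕ) (r : ℝ), 0 ≤ r → h (pol d r m) = pol d (k (m % d) r) m) ∧
      ∀ R : ℝ, 0 ≤ R → (∀ j r, R ≤ r → k j r = r) → ∀ z, R ≤ ‖z‖ → h z = z := by
  have hd' : (0 : ℝ) < d := by positivity
  set q : ℝ → ℝ → ℝ := fun r v => ∑ j ∈ Finset.range (d + 1), wt j v * k (j % d) r with hq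
  have hqm : ∀ (r : ℝ) (m : ℕ), m ≤ d → q r m = k (m % d) r := fun r m hm =>
    wt_sum_nat hm (fun j => k (j % d) r)
  obtain ⟨h, hh⟩ := exists_radial (d := d) hd (q := q)
    (by
      apply continuous_finsetSum
      intro j _
      exact ((wt_continuous j).comp continuous_snd).mul ((hk _).comp continuous_fst))
    (fun v => by simp [hq, h0])
    (fun r => by
      have h1 := hqm r 0 (Nat.zero_le _)
      have h2 := hqm r d le_rfl
      rw [Nat.cast_zero] at h1
      rw [h1, h2, Nat.zero_mod, Nat.mod_self])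
    (by
      intro v hv hv' r hr r' hr' hrr
      apply Finset.sum_lt_sum
      · intro j _
        exact mul_le_mul_of_nonneg_left ((hmono _).monotoneOn hr hr' hrr.le) (wt_nonneg j v)
      · by_contra hcon
        push Not at hcon
        have h1 : ∀ j ∈ Finset.range (d + 1), wt j v = 0 := by
          intro j hj
          by_contra h2
          have h3 := hcon j hj
          have h4 : 0 < wt j v := lt_of_le_of_ne (wt_nonneg j v) (Ne.symm h2)
          have h5 := (mul_lt_mul_iff_right₀ h4).2 (hmono (j % d) hr hr' hrr)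
          linarith
        have h2 := wt_sum_one (d := d) hv hv'
        rw [Finset.sum_eq_zero h1] at h2
        norm_num at h2)
    C
    (by
      intro r v hr hv hv'
      calc r - C = ∑ j ∈ Finset.range (d + 1), wt j v * (r - C) := by
            rw [← Finset.sum_mul, wt_sum_one hv hv', one_mul]
        _ ≤ _ := Finset.sum_le_sum fun j _ =>
            mul_le_mul_of_nonneg_left (hC _ r hr) (wt_nonneg j v))
  refine ⟨h, ?_, ?_⟩
  · intro m r hr
    have hm : m % d ≤ d := (Nat.mod_lt _ hd).le
    rw [pol_mod hd r m, pol_mod hd _ m,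
      hh r _ hr (Nat.cast_nonneg _) (by exact_mod_cast hm), hqm r _ hm, Nat.mod_mod]
  · intro R hR hkR z hz
    obtain ⟨r, v, hr, hv, hv', rfl⟩ := exists_pol hd z
    rw [norm_pol, abs_of_nonneg hr] at hz
    rw [hh r v hr hv hv'.le]
    congr 1
    calc q r v = ∑ j ∈ Finset.range (d + 1), wt j v * r :=
          Finset.sum_congr rfl fun j _ => by rw [hkR _ r hz]
      _ = r := by rw [← Finset.sum_mul, wt_sum_one hv hv'.le, one_mul]

/-- a homeomorphism which fixes the legs and pushes everything else out of the unit disc, except a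
thin neighbourhood of the legs -/
theorem exists_thin (hd : 0 < d) {η : ℝ} (hη : 0 < η) :
    ∃ h : ℂ ≃ₜ ℂ, (∀ (m : ℕ) (r : ℝ), 0 ≤ r → h (pol d r m) = pol d r m) ∧
      ∀ z, ‖h z‖ ≤ 1 → ∃ (m : ℕ) (r : ℝ), 0 ≤ r ∧ r ≤ 1 ∧ dist z (pol d r m) ≤ η := by
  have hd' : (1 : ℝ) ≤ d := by exact_mod_cast hd
  have hpi := Real.pi_pos
  set C : ℝ := Real.pi / η with hCdef
  have hCpos : 0 < C := by positivity
  set q : ℝ → ℝ → ℝ := fun r v => r * (1 + C * |Real.sin (Real.pi * v)|) with hq
  have hsin : ∀ m : ℕ, Real.sin (Real.pi * m) = 0 := fun m => by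
    rw [mul_comm]
    exact Real.sin_nat_mul_pi m
  have hf1 : ∀ v : ℝ, 1 ≤ 1 + C * |Real.sin (Real.pi * v)| := fun v => by
    have : 0 ≤ C * |Real.sin (Real.pi * v)| := by positivity
    linarith
  obtain ⟨h, hh⟩ := exists_radial (d := d) hd (q := q)
    (by
      simp only [hq]
      fun_prop)
    (fun v => by simp [hq])
    (fun r => by
      simp only [hq]
      rw [hsin d]
      simp)
    (by
      intro v _ _ r _ r' _ hrr
      exact mul_lt_mul_of_pos_right hrr (lt_of_lt_of_le one_pos (hf1 v)))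
    0
    (by
      intro r v hr _ _
      simp only [hq, sub_zero]
      exact le_mul_of_one_le_right hr (hf1 v))
  refine ⟨h, ?_, ?_⟩
  · intro m r hr
    have hm : m % d ≤ d := (Nat.mod_lt _ hd).le
    rw [pol_mod hd r m, hh r _ hr (Nat.cast_nonneg _) (by exact_mod_cast hm)]
    simp only [hq]
    rw [hsin]
    simp
  · intro z hz
    obtain ⟨r, v, hr, hv, hv', rfl⟩ := exists_pol hd z
    rw [hh r v hr hv hv'.le, norm_pol, abs_of_nonneg (by
      simp only [hq]
      exact mul_nonneg hr (zero_le_one.trans (hf1 v)))] at hz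
    have hr1 : r ≤ 1 := by
      refine le_trans ?_ hz
      simp only [hq]
      exact le_mul_of_one_le_right hr (hf1 v)
    have hrC : r * (C * |Real.sin (Real.pi * v)|) ≤ 1 := by
      have h1 : q r v = r + r * (C * |Real.sin (Real.pi * v)|) := by
        simp only [hq]
        ring
      rw [h1] at hz
      linarith
    have hrd : 0 ≤ round v := by
      rw [round_eq]
      exact Int.floor_nonneg.2 (by positivity)
    obtain ⟨m, hm⟩ := Int.eq_ofNat_of_zero_le hrd
    have habs : |v - m| ≤ 1 / 2 := by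
      have := abs_sub_round v
      rw [hm] at this
      exact_mod_cast this
    have hsv : |Real.sin (Real.pi * v)| = |Real.sin (Real.pi * (v - m))| := by
      rw [mul_sub, mul_comm Real.pi (m : ℝ), Real.sin_sub_nat_mul_pi, abs_mul, abs_pow, abs_neg,
        abs_one, one_pow, one_mul]
    have hjor : 2 * |v - m| ≤ |Real.sin (Real.pi * v)| := by
      rw [hsv]
      have h1 := Real.mul_abs_le_abs_sin (x := Real.pi * (v - m)) (by
        rw [abs_mul, abs_of_pos hpi]
        nlinarith)
      refine le_trans (le_of_eq ?_) h1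
      rw [abs_mul, abs_of_pos hpi]
      field_simp
    refine ⟨m, r, hr, hr1, (dist_pol_le r r v m).trans ?_⟩
    rw [sub_self, abs_zero, zero_add, abs_of_nonneg hr]
    have h2 : 2 * Real.pi * |v - m| / d ≤ Real.pi * |Real.sin (Real.pi * v)| := by
      refine (div_le_self (by positivity) hd').trans ?_
      nlinarith
    have h3 : r * (Real.pi * |Real.sin (Real.pi * v)|) = η * (r * (C * |Real.sin (Real.pi * v)|)) := by
      rw [hCdef]
      field_simp
    calc r * (2 * Real.pi * |v - m| / d) ≤ r * (Real.pi * |Real.sin (Real.pi * v)|) :=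
          mul_le_mul_of_nonneg_left h2 hr
      _ = η * (r * (C * |Real.sin (Real.pi * v)|)) := h3
      _ ≤ η * 1 := mul_le_mul_of_nonneg_left hrC hη.le
      _ = η := mul_one η

end Pool.Agent.PL
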