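import Pool.Agent.DB.G.Lin
import Pool.Agent.DB.G.Pl
import Pool.Agent.DB.G.Legs

/-!
# DB-G-Chart: a homeomorphism which makes the star at `x` standard

PLAN. Let `u`, `lam` be as in `Good'.ray` for `x`. For `h = n + t` (`pl_eq`, `pl_mem`):
`lin φ (pl (ray x m) L h) = φ x + Λ_m h * (u * pol d 1 m)`,
`Λ_m h := ∑ i < L, (lam m (i+1) - lam m i) * min 1 (max 0 (h - i)) + max 0 (h - L)`
(for `h = n + t` the sum is `lam m n + t (lam m (n+1) - lam m n)` by telescoping), `Λ_m` is continuous,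
`Λ_m 0 = 0`, strictly increasing on `[0, ∞)` (for `h < h'`: if `h < L` the summand `i = ⌊h⌋` increases
strictly, otherwise the last one), `Λ_m h ≥ h - L`. Only `lam m` with `m < d x` is used: by
`M.ray_per` the rays `m` and `m % d x` coincide. `exists_legs` with `k j r := Λ_j (r * L / ℓ)` gives `R'` with
`R' (pol (ℓ h / L) m) = pol (Λ_m h) m` (growth: `Λ (r L / ℓ) ≥ r - C` may fail when `L < ℓ`, so take
`Λ_m h := ... + max 0 (h - L) * (ℓ / L)` or any other growth rate `≥ ℓ / L`). `H₀ := R'⁻¹ ∘ (z ↦ (z - φ x) / u)` has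
`H₀ (lin φ (pl (ray x m) L h)) = pol (ℓ h / L) m`.
Rest: `Z := {p ∈ real G | ∀ m j, j < L → p (ray x m j) = 0}` is compact. A point of `real G` which is not on
the star of `x` lies in `Z` (edge `[a,b]` with a vertex `ray x m j`, `j < L`: `j = 0`: `M.nbr`, `j > 0`:
`M.ray_int`, so the whole edge is on the star). The compact set
`Y := {pol r m | 0 ≤ r ≤ 1, m < d x}` is disjoint from `H₀ '' (lin φ '' Z)`: `pol r m = H₀ (lin φ (pl (ray x m) L (r L / ℓ)))`,
injectivity, and `pl (ray x m) L h` with `h < L` has positive mass at some `ray x m j`, `j < L`. So the distance is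
`> η > 0`; take `T` from `exists_thin` with this `η` and `H := T ∘ H₀`: if `‖T z‖ < 1` for `z = H₀ (lin φ p)`, `p ∈ Z`,
then `dist z (pol r m) ≤ η`, contradiction.
-/

set_option autoImplicit false

namespace Pool.Agent.DB

open Set Pool.Agent.PL

private theorem chart_real_compact {V : Type} [Fintype V] [DecidableEq V] (G : SimpleGraph V) :
    IsCompact (real G) := by
  have h : real G = ⋃ q ∈ {q : V × V | q.1 = q.2 ∨ G.Adj q.1 q.2},
      (fun t : ℝ => (1 - t) • ev q.1 + t • (ev q.2 : V → ℝ)) '' Icc 0 1 := by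
    ext p
    simp only [mem_iUnion, mem_image]
    constructor
    · rintro ⟨a, b, hab, t, h0, h1, rfl⟩
      exact ⟨(a, b), hab, t, ⟨h0, h1⟩, rfl⟩
    · rintro ⟨⟨a, b⟩, hab, t, ht, rfl⟩
      exact ⟨a, b, hab, t, ht.1, ht.2, rfl⟩
  rw [h]
  refine (Set.toFinite _).isCompact_biUnion fun q _ => ?_
  exact isCompact_Icc.image (by fun_prop)

/-- piecewise linear interpolation -/
private noncomputable def cLam (lam : ℕ → ℝ) (L : ℕ) (ℓ h : ℝ) : ℝ :=
  ∑ i ∈ Finset.range L, (lam (i + 1) - lam i) * min 1 (max 0 (h - i)) + ℓ * max 0 (h - L)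

private theorem cLam_continuous (lam : ℕ → ℝ) (L : ℕ) (ℓ : ℝ) : Continuous (cLam lam L ℓ) := by
  unfold cLam
  exact (continuous_finset_sum _ fun i _ => by fun_prop).add (by fun_prop)

private theorem cLam_zero (lam : ℕ → ℝ) (L : ℕ) (ℓ : ℝ) : cLam lam L ℓ 0 = 0 := by
  unfold cLam
  rw [Finset.sum_eq_zero, zero_add, max_eq_left, mul_zero]
  · have : (0 : ℝ) ≤ L := Nat.cast_nonneg L
    linarith
  · intro i _
    have : (0 : ℝ) ≤ i := Nat.cast_nonneg i
    rw [max_eq_left (by linarith), min_eq_right (by norm_num), mul_zero]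

private theorem cLam_eq (lam : ℕ → ℝ) {L n : ℕ} (ℓ : ℝ) (hn : n < L) {t : ℝ} (h0 : 0 ≤ t)
    (h1 : t ≤ 1) : cLam lam L ℓ (n + t) = lam n - lam 0 + t * (lam (n + 1) - lam n) := by
  unfold cLam
  obtain ⟨k, rfl⟩ : ∃ k, L = (n + 1) + k := ⟨L - (n + 1), by omega⟩
  rw [Finset.sum_range_add, Finset.sum_range_succ]
  have e1 : ∑ i ∈ Finset.range n, (lam (i + 1) - lam i) * min 1 (max 0 ((n : ℝ) + t - i)) =
      lam n - lam 0 := by
    rw [← Finset.sum_range_sub]
    refine Finset.sum_congr rfl fun i hi => ?_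
    have h2 : (i : ℝ) + 1 ≤ n := by
      have := Finset.mem_range.1 hi
      exact_mod_cast this
    rw [min_eq_left, mul_one]
    exact le_max_of_le_right (by linarith)
  have e2 : min 1 (max 0 ((n : ℝ) + t - n)) = t := by
    rw [add_sub_cancel_left, max_eq_right h0, min_eq_right h1]
  have e3 : ∑ i ∈ Finset.range k, (lam (n + 1 + i + 1) - lam (n + 1 + i)) *
      min 1 (max 0 ((n : ℝ) + t - (n + 1 + i : ℕ))) = 0 := by
    refine Finset.sum_eq_zero fun i _ => ?_
    have : (0 : ℝ) ≤ i := Nat.cast_nonneg i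
    push_cast
    rw [max_eq_left (by linarith), min_eq_right (by norm_num), mul_zero]
  have e4 : max 0 ((n : ℝ) + t - (n + 1 + k : ℕ)) = 0 := by
    have : (0 : ℝ) ≤ k := Nat.cast_nonneg k
    push_cast
    exact max_eq_left (by linarith)
  rw [e1, e2, e3, e4]
  ring

private theorem cLam_strict {lam : ℕ → ℝ} {L : ℕ} (hlam : ∀ j, j < L → lam j < lam (j + 1)) {ℓ : ℝ}
    (hℓ : 0 < ℓ) : StrictMonoOn (cLam lam L ℓ) (Ici 0) := by
  intro h hh h' _ hlt
  have hh0 : 0 ≤ h := hh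
  unfold cLam
  have hle : ∀ i ∈ Finset.range L, (lam (i + 1) - lam i) * min 1 (max 0 (h - i)) ≤
      (lam (i + 1) - lam i) * min 1 (max 0 (h' - i)) := by
    intro i hi
    have h1 := hlam i (Finset.mem_range.1 hi)
    refine mul_le_mul_of_nonneg_left ?_ (by linarith)
    exact min_le_min le_rfl (max_le_max le_rfl (by linarith))
  have hle2 : ℓ * max 0 (h - L) ≤ ℓ * max 0 (h' - L) :=
    mul_le_mul_of_nonneg_left (max_le_max le_rfl (by linarith)) hℓ.le
  by_cases hL : h < L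
  · have hfl : ⌊h⌋₊ < L := by
      rw [Nat.floor_lt hh0]
      exact hL
    have h1 : (⌊h⌋₊ : ℝ) ≤ h := Nat.floor_le hh0
    have h2 : h < ⌊h⌋₊ + 1 := Nat.lt_floor_add_one h
    refine add_lt_add_of_lt_of_le (Finset.sum_lt_sum hle ⟨⌊h⌋₊, Finset.mem_range.2 hfl, ?_⟩) hle2
    have h3 := hlam _ hfl
    refine mul_lt_mul_of_pos_left ?_ (by linarith)
    rw [max_eq_right (by linarith), max_eq_right (by linarith), min_eq_right (by linarith)]
    exact lt_min (by linarith) (by linarith)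
  · push Not at hL
    refine add_lt_add_of_le_of_lt (Finset.sum_le_sum hle) ?_
    refine mul_lt_mul_of_pos_left ?_ hℓ
    rw [max_eq_right (by linarith), max_eq_right (by linarith)]
    linarith

private theorem cLam_ge {lam : ℕ → ℝ} {L : ℕ} (hlam : ∀ j, j < L → lam j < lam (j + 1)) {ℓ : ℝ}
    (hℓ : 0 < ℓ) (h : ℝ) : ℓ * (h - L) ≤ cLam lam L ℓ h := by
  unfold cLam
  have h1 : 0 ≤ ∑ i ∈ Finset.range L, (lam (i + 1) - lam i) * min 1 (max 0 (h - i)) := by
    refine Finset.sum_nonneg fun i hi => ?_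
    have h1 := hlam i (Finset.mem_range.1 hi)
    exact mul_nonneg (by linarith) (le_min (by norm_num) (le_max_left _ _))
  have h2 : ℓ * (h - L) ≤ ℓ * max 0 (h - L) :=
    mul_le_mul_of_nonneg_left (le_max_right _ _) hℓ.le
  linarith

/-- a point of the realisation which does not vanish at the inner vertices of the star at `x` is
on the star -/
private theorem chart_star (M : Model) (x : M.V) (hx : x ∈ M.B) (hL : 0 < M.L) {p : M.V → ℝ}
    (hp : p ∈ real M.G) {m j : ℕ} (hj : j < M.L) (hne : p (M.ray x m j) ≠ 0) :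
    ∃ (m : ℕ) (h : ℝ), 0 ≤ h ∧ h ≤ M.L ∧ p = pl (M.ray x m) M.L h := by
  have hjL : (j : ℝ) + 1 ≤ M.L := by exact_mod_cast hj
  have hj0 : (0 : ℝ) ≤ j := Nat.cast_nonneg j
  have hL1 : (1 : ℝ) ≤ M.L := by exact_mod_cast hL
  have key : ∀ (b : M.V) (t : ℝ), 0 ≤ t → t ≤ 1 → M.G.Adj (M.ray x m j) b →
      ∃ (m' : ℕ) (h : ℝ), 0 ≤ h ∧ h ≤ M.L ∧
        (1 - t) • ev (M.ray x m j) + t • ev b = pl (M.ray x m') M.L h := by
    intro b t h0 h1 hab
    rcases Nat.eq_zero_or_pos j with hj | hj'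
    · subst hj
      rw [M.ray_zero x hx] at hab ⊢
      obtain ⟨m', _, hb⟩ := M.nbr x hx b hab
      refine ⟨m', t, h0, by linarith, ?_⟩
      have := pl_eq (M.ray x m') M.L 0 hL t h0 h1
      rw [Nat.cast_zero, zero_add, M.ray_zero x hx] at this
      rw [this, hb]
    · rcases M.ray_int x hx m j hj' hj b hab with hb | hb
      · obtain ⟨i, rfl⟩ : ∃ i, j = i + 1 := ⟨j - 1, by omega⟩
        rw [Nat.add_sub_cancel] at hb
        push_cast at hjL
        refine ⟨m, i + (1 - t), by linarith [(Nat.cast_nonneg i : (0:ℝ) ≤ i)], by linarith, ?_⟩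
        rw [pl_eq (M.ray x m) M.L i (by omega) (1 - t) (by linarith) (by linarith), hb]
        rw [sub_sub_cancel]
        exact add_comm _ _
      · refine ⟨m, j + t, by linarith, by linarith, ?_⟩
        rw [pl_eq (M.ray x m) M.L j hj t h0 h1, hb]
  obtain ⟨a, b, hab, t, h0, h1, rfl⟩ := hp
  have hcoef : M.ray x m j = a ∨ M.ray x m j = b := by
    by_contra hcon
    push Not at hcon
    apply hne
    simp [ev, Pi.single_eq_of_ne hcon.1, Pi.single_eq_of_ne hcon.2]
  rcases hab with rfl | hab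
  · have ha : M.ray x m j = a := by
      rcases hcoef with h | h <;> exact h
    refine ⟨m, j, hj0, by linarith, ?_⟩
    have := pl_eq (M.ray x m) M.L j hj 0 le_rfl (by norm_num)
    rw [add_zero, sub_zero, one_smul, zero_smul, add_zero] at this
    rw [this, ha, ← add_smul, sub_add_cancel, one_smul]
  · rcases hcoef with h | h
    · subst h
      exact key b t h0 h1 hab
    · subst h
      obtain ⟨m', h', e1, e2, e3⟩ := key a (1 - t) (by linarith) (by linarith) hab.symm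
      refine ⟨m', h', e1, e2, ?_⟩
      rw [← e3, sub_sub_cancel]
      exact add_comm _ _

theorem chart (M : Model) (φ : M.V → ℂ) (hφ : Good' M φ) (x : M.V) (hx : x ∈ M.B) (ℓ : ℝ)
    (hℓ : 1 < ℓ) :
    ∃ H : ℂ ≃ₜ ℂ, (∀ (m : ℕ) (h : ℝ), 0 ≤ h → h ≤ M.L →
        H (lin φ (pl (M.ray x m) M.L h)) = pol (M.d x) (ℓ * h / M.L) m) ∧
      ∀ p ∈ real M.G, (¬ ∃ (m : ℕ) (h : ℝ), 0 ≤ h ∧ h ≤ M.L ∧ p = pl (M.ray x m) M.L h) →
        1 ≤ ‖H (lin φ p)‖ := by
  have hd3 := M.three_le x hx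
  have hd : 0 < M.d x := by omega
  have hL : 0 < M.L := by
    have h1 := M.long x hx
    have h2 : 0 < (M.d x ^ 2 + M.d x + 1) * M.d x := by positivity
    omega
  have hL1 : (1 : ℝ) ≤ M.L := by exact_mod_cast hL
  have hLp : (0 : ℝ) < M.L := by linarith
  have hℓ0 : 0 < ℓ := by linarith
  obtain ⟨u, lam, hu, hlam0, hlam, hray⟩ := hφ.ray x hx
  have hu0 : u ≠ 0 := by
    intro h0
    rw [h0, norm_zero] at hu
    exact zero_ne_one hu
  -- the legs
  obtain ⟨R, hR, _⟩ := exists_legs hd (fun j r => cLam (lam j) M.L ℓ (r * M.L / ℓ))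
    (fun j => (cLam_continuous (lam j) M.L ℓ).comp (by fun_prop))
    (fun j => by simp only [zero_mul, zero_div]; exact cLam_zero _ _ _)
    (fun j => by
      intro r hr r' hr' hlt
      have hr0 : 0 ≤ r := hr
      have hr0' : 0 ≤ r' := hr'
      refine cLam_strict (hlam j) hℓ0 ?_ ?_ ?_
      · show 0 ≤ r * M.L / ℓ
        positivity
      · show 0 ≤ r' * M.L / ℓ
        positivity
      · exact div_lt_div_of_pos_right (mul_lt_mul_of_pos_right hlt hLp) hℓ0)
    (ℓ * M.L) (fun j r hr => by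
      refine le_trans ?_ (cLam_ge (hlam j) hℓ0 _)
      rw [mul_sub, mul_div_cancel₀ _ hℓ0.ne']
      nlinarith)
  -- formula
  have hform : ∀ (m : ℕ) (h : ℝ), 0 ≤ h → h ≤ M.L →
      lin φ (pl (M.ray x m) M.L h) = φ x + u * pol (M.d x) (cLam (lam (m % M.d x)) M.L ℓ h) m := by
    intro m h h0 h1
    have hrm : M.ray x m = M.ray x (m % M.d x) := by
      funext j
      exact M.ray_per x hx _ _ j (Nat.mod_modEq m _).symm
    have hpol : ∀ r : ℝ, pol (M.d x) r m = pol (M.d x) r ((m % M.d x : ℕ) : ℝ) := by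
      intro r
      have h2 : (m : ℝ) = ((m % M.d x : ℕ) : ℝ) + ((m / M.d x : ℕ) : ℝ) * M.d x := by
        have := Nat.mod_add_div m (M.d x)
        rw [mul_comm] at this
        exact_mod_cast this.symm
      rw [h2]
      have h3 := pol_add_nat hd r ((m % M.d x : ℕ) : ℝ) (m / M.d x)
      rw [← h2] at h3 ⊢
      exact h3
    rw [hrm, hpol]
    set m' := m % M.d x with hm'
    obtain ⟨n, t, hn, ht0, ht1, rfl⟩ := pl_mem (M.ray x m') M.L hL h h0 h1
    rw [pl_eq _ _ n hn t ht0 ht1, lin_add, lin_smul, lin_smul, lin_ev, lin_ev,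
      hray m' n hn.le, hray m' (n + 1) hn, cLam_eq (lam m') ℓ hn ht0 ht1, hlam0 m', pol]
    push_cast
    ring
  -- the homeomorphism before the thin modification
  let A : ℂ ≃ₜ ℂ := (Homeomorph.mulLeft₀ u hu0).trans (Homeomorph.addLeft (φ x))
  have hA : ∀ z, A z = φ x + u * z := fun z => rfl
  let B : ℂ ≃ₜ ℂ := R.trans A
  have hB : ∀ (m : ℕ) (h : ℝ), 0 ≤ h → h ≤ M.L →
      B (pol (M.d x) (ℓ * h / M.L) m) = lin φ (pl (M.ray x m) M.L h) := by
    intro m h h0 h1
    show A (R (pol (M.d x) (ℓ * h / M.L) m)) = _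
    rw [hA, hR m _ (by positivity), hform m h h0 h1]
    congr 4
    field_simp
  -- compact sets
  set Z : Set (M.V → ℝ) := {p | p ∈ real M.G ∧ ∀ m j, j < M.L → p (M.ray x m j) = 0} with hZ
  have hZc : IsCompact Z := by
    have h1 : Z = real M.G ∩ ⋂ (m : ℕ) (j : ℕ) (_ : j < M.L), {p | p (M.ray x m j) = 0} := by
      ext p
      simp [hZ]
    rw [h1]
    refine (chart_real_compact M.G).inter_right ?_
    refine isClosed_iInter fun m => isClosed_iInter fun j => isClosed_iInter fun _ => ?_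
    exact isClosed_eq (continuous_apply _) continuous_const
  set Y : Set ℂ := ⋃ m ∈ Finset.range (M.d x), (fun r : ℝ => pol (M.d x) r (m : ℝ)) '' Icc 0 1 with hY
  have hYc : IsCompact Y := by
    refine (Finset.range (M.d x)).finite_toSet.isCompact_biUnion fun m _ => ?_
    exact isCompact_Icc.image (continuous_pol.comp (by fun_prop : Continuous fun r : ℝ => (r, (m : ℝ))))
  have hYmem : ∀ (m : ℕ) (r : ℝ), 0 ≤ r → r ≤ 1 → pol (M.d x) r m ∈ Y := by
    intro m r h0 h1
    have h2 : (m : ℝ) = ((m % M.d x : ℕ) : ℝ) + ((m / M.d x : ℕ) : ℝ) * M.d x := by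
      have := Nat.mod_add_div m (M.d x)
      rw [mul_comm] at this
      exact_mod_cast this.symm
    have h3 : pol (M.d x) r m = pol (M.d x) r ((m % M.d x : ℕ) : ℝ) := by
      rw [h2]
      have h3 := pol_add_nat hd r ((m % M.d x : ℕ) : ℝ) (m / M.d x)
      rw [← h2] at h3 ⊢
      exact h3
    rw [h3]
    refine mem_biUnion (Finset.mem_coe.2 (Finset.mem_range.2 (Nat.mod_lt m hd))) ?_
    exact ⟨r, ⟨h0, h1⟩, rfl⟩
  have hdisj : Disjoint (B.symm '' (lin φ '' Z)) Y := by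
    rw [Set.disjoint_left]
    rintro _ ⟨_, ⟨p, hp, rfl⟩, rfl⟩ hy
    obtain ⟨m, _, hy2⟩ := mem_iUnion₂.1 hy
    obtain ⟨r, ⟨hr0, hr1⟩, hr⟩ := hy2
    have hr' : pol (M.d x) r m = B.symm (lin φ p) := hr
    set h : ℝ := r * M.L / ℓ with hh
    have hh0 : 0 ≤ h := by positivity
    have hhL : h < M.L := by
      rw [hh, div_lt_iff₀ hℓ0]
      nlinarith
    have h2 : ℓ * h / M.L = r := by
      rw [hh]
      field_simp
    have h3 := hB m h hh0 hhL.le
    rw [h2, hr', Homeomorph.apply_symm_apply] at h3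
    have hfl : ⌊h⌋₊ < M.L := by
      rw [Nat.floor_lt hh0]
      exact hhL
    have h4 : (⌊h⌋₊ : ℝ) ≤ h := Nat.floor_le hh0
    have h5 : h < ⌊h⌋₊ + 1 := Nat.lt_floor_add_one h
    have h6 : pl (M.ray x m) M.L h = (1 - (h - ⌊h⌋₊)) • ev (M.ray x m ⌊h⌋₊) +
        (h - ⌊h⌋₊) • ev (M.ray x m (⌊h⌋₊ + 1)) := by
      have := pl_eq (M.ray x m) M.L ⌊h⌋₊ hfl (h - ⌊h⌋₊) (by linarith) (by linarith)
      rw [add_sub_cancel] at this
      exact this
    have hadj := M.ray_adj x hx m ⌊h⌋₊ hfl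
    have h7 : pl (M.ray x m) M.L h ∈ real M.G :=
      ⟨_, _, Or.inr hadj, h - ⌊h⌋₊, by linarith, by linarith, h6⟩
    have h8 : p = pl (M.ray x m) M.L h := hφ.inj hp.1 h7 h3
    have h9 := hp.2 m ⌊h⌋₊ hfl
    rw [h8, h6] at h9
    simp only [Pi.add_apply, Pi.smul_apply, ev, Pi.single_eq_same, Pi.single_eq_of_ne hadj.ne,
      smul_eq_mul, mul_one, mul_zero, add_zero] at h9
    linarith
  obtain ⟨η, hη, hηd⟩ := Metric.exists_pos_forall_lt_edist
    ((hZc.image (lin_continuous φ)).image B.symm.continuous) hYc.isClosed hdisj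
  obtain ⟨T, hT1, hT2⟩ := exists_thin (η := (η : ℝ)) hd (by exact_mod_cast hη)
  refine ⟨B.symm.trans T, ?_, ?_⟩
  · intro m h h0 h1
    show T (B.symm (lin φ (pl (M.ray x m) M.L h))) = _
    rw [← hB m h h0 h1, Homeomorph.symm_apply_apply]
    exact hT1 m _ (by positivity)
  · intro p hp hns
    have hpZ : p ∈ Z := by
      refine ⟨hp, fun m j hj => ?_⟩
      by_contra hne
      exact hns (chart_star M x hx hL hp hj hne)
    show 1 ≤ ‖T (B.symm (lin φ p))‖
    by_contra hcon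
    push Not at hcon
    obtain ⟨m, r, h0, h1, h2⟩ := hT2 _ hcon.le
    have h3 := hηd (B.symm (lin φ p)) ⟨lin φ p, ⟨p, hpZ, rfl⟩, rfl⟩ (pol (M.d x) r m)
      (hYmem m r h0 h1)
    rw [edist_dist] at h3
    have h4 : ENNReal.ofReal (dist (B.symm (lin φ p)) (pol (M.d x) r m)) ≤ (η : ENNReal) := by
      rw [← ENNReal.ofReal_coe_nnreal]
      exact ENNReal.ofReal_le_ofReal h2
    exact absurd h3 (not_lt.2 h4)

end Pool.Agent.DB
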