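import Pool.Agent.DB.G.Lin

/-!
# DB-G-Draw: straight-line drawings of finite trees with prescribed directions

PLAN. Fix a root `r`. For `v ≠ r` exactly one neighbour of `v` has smaller distance to `r` (its
parent): `SimpleGraph.IsTree.dist_eq_dist_add_one_of_adj` (distances of adjacent vertices differ by
exactly one) and uniqueness of paths (`IsAcyclic.path_unique`: two paths from `r` to `v` through two
different last-but-one vertices). Show by induction on `n`, `1 ≤ n ≤ card V`, that there is a finset `S`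
of `n` vertices, closed under parents, containing `r`, with (P S): exist `φ c l` with
`‖c x‖ = 1` for all `x`, the equations for all adjacent `x, y ∈ S`, and `lin φ` injective on
`{p ∈ real G | ∀ v, v ∉ S → p v = 0}`. (`S = {r}`: the only such point is `ev r`.)
Step: `v ∉ S` of minimal distance, `y ∈ S` its parent; `y` is the only neighbour of `v` in `S`.
The set `Z = {p ∈ real G | p = 0 outside S, p y = 0}` is compact (real G is compact: finite union of
images of `[0,1]`), `φ y ∉ lin φ '' Z` by injectivity, so there is `ρ > 0` with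
`ρ < dist (φ y) (lin φ p)` for all `p ∈ Z`. Put `φ v := φ y + ρ c_y a(y,v)`, `c_v := - c_y a(y,v) / a(v,y)`,
`l y v = l v y = ρ`. Injectivity for `S ∪ {v}`: points with `p v = 0` are old; a point with `p v > 0`
is `(1-s) ev y + s ev v`, `0 < s ≤ 1`, with image `φ y + s ρ c_y a(y,v)`; an old point `q` with the same image
has `q y > 0` by the choice of `ρ` (distance `s ρ ≤ ρ` from `φ y`), so `q = (1-t) ev y + t ev z`, `z = y`
or `z ∈ S` adjacent to `y`, image `φ y + t l(y,z) c_y a(y,z)`, so (norms) `t l = s ρ > 0` and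
`a(y,z) = a(y,v)`, `z = v`, contradiction. Two points with `p v > 0`, `q v > 0`: norms give `s = s'`.
-/

set_option autoImplicit false
set_option linter.unusedSectionVars false

namespace Pool.Agent.DB

open Set

section Draw

variable {V : Type} [Fintype V] [DecidableEq V]

private theorem dr_ev_self (a : V) : (ev a : V → ℝ) a = 1 := by simp [ev]

private theorem dr_ev_ne {a b : V} (h : b ≠ a) : (ev a : V → ℝ) b = 0 := by
  simp [ev, Pi.single_eq_of_ne h]

private theorem dr_ev_mem (G : SimpleGraph V) (a : V) : (ev a : V → ℝ) ∈ real G :=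
  ⟨a, a, Or.inl rfl, 0, le_rfl, zero_le_one, by simp⟩

private theorem dr_sum {G : SimpleGraph V} {p : V → ℝ} (hp : p ∈ real G) : ∑ v, p v = 1 := by
  obtain ⟨a, b, -, t, -, -, rfl⟩ := hp
  have h : ∀ c : V, ∑ v, (ev c : V → ℝ) v = 1 := by
    intro c
    simp [ev]
  simp only [Pi.add_apply, Pi.smul_apply, smul_eq_mul, Finset.sum_add_distrib, ← Finset.mul_sum, h]
  ring

private theorem dr_nonneg {G : SimpleGraph V} {p : V → ℝ} (hp : p ∈ real G) (v : V) : 0 ≤ p v := by
  obtain ⟨a, b, -, t, h0, h1, rfl⟩ := hp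
  have h : ∀ c : V, 0 ≤ (ev c : V → ℝ) v := by
    intro c
    by_cases hc : v = c
    · subst hc; rw [dr_ev_self]; norm_num
    · rw [dr_ev_ne hc]
  have := h a
  have := h b
  simp only [Pi.add_apply, Pi.smul_apply, smul_eq_mul]
  have h2 : 0 ≤ (1 - t) := by linarith
  positivity

private theorem dr_single {G : SimpleGraph V} {p : V → ℝ} (hp : p ∈ real G) {r : V}
    (h : ∀ v, v ≠ r → p v = 0) : p = ev r := by
  have h1 := dr_sum hp
  rw [Finset.sum_eq_single r (fun b _ hb => h b hb) (by simp)] at h1
  funext v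
  by_cases hv : v = r
  · subst hv; rw [dr_ev_self, h1]
  · rw [h v hv, dr_ev_ne hv]

private theorem dr_compact (G : SimpleGraph V) : IsCompact (real G) := by
  have h : real G = ⋃ ab ∈ {ab : V × V | ab.1 = ab.2 ∨ G.Adj ab.1 ab.2},
      (fun t : ℝ => (1 - t) • (ev ab.1 : V → ℝ) + t • ev ab.2) '' Icc 0 1 := by
    ext p
    simp only [real, mem_ofPred_eq, mem_iUnion, mem_image, mem_Icc, exists_prop, Prod.exists]
    constructor
    · rintro ⟨a, b, hab, t, h0, h1, rfl⟩
      exact ⟨a, b, hab, t, ⟨h0, h1⟩, rfl⟩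
    · rintro ⟨a, b, hab, t, ⟨h0, h1⟩, rfl⟩
      exact ⟨a, b, hab, t, h0, h1, rfl⟩
  rw [h]
  refine (Set.toFinite _).isCompact_biUnion fun ab _ => ?_
  refine isCompact_Icc.image ?_
  fun_prop

private theorem dr_form {G : SimpleGraph V} {p : V → ℝ} (hp : p ∈ real G) {v : V} (hv : p v ≠ 0) :
    ∃ w, (w = v ∨ G.Adj w v) ∧ ∃ s : ℝ, 0 < s ∧ s ≤ 1 ∧ p = (1 - s) • ev w + s • ev v := by
  obtain ⟨a, b, hab, t, h0, h1, rfl⟩ := hp
  by_cases hb : b = v
  · subst hb
    by_cases ht : t = 0
    · subst ht
      by_cases ha : a = b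
      · subst ha
        exact ⟨a, Or.inl rfl, 1, one_pos, le_rfl, by simp⟩
      · exfalso
        apply hv
        simp [dr_ev_ne (Ne.symm ha)]
    · exact ⟨a, hab, t, lt_of_le_of_ne h0 (Ne.symm ht), h1, rfl⟩
  · by_cases ha : a = v
    · subst ha
      refine ⟨b, ?_, 1 - t, ?_, by linarith, ?_⟩
      · rcases hab with h | h
        · exact Or.inl h.symm
        · exact Or.inr h.symm
      · rcases h1.lt_or_eq with h | h
        · linarith
        · exfalso
          apply hv
          subst h
          simp [dr_ev_ne (Ne.symm hb)]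
      · rw [add_comm]
        congr 1
        congr 1
        ring
    · exfalso
      apply hv
      simp [dr_ev_ne (Ne.symm ha), dr_ev_ne (Ne.symm hb)]

/-- normal form of a point, with the support condition -/
private theorem dr_form' {G : SimpleGraph V} {S : Finset V} {p : V → ℝ} (hp : p ∈ real G)
    (hS : ∀ w, w ∉ S → p w = 0) {v : V} (hv : p v ≠ 0) :
    p = ev v ∨ ∃ w ∈ S, w ≠ v ∧ G.Adj w v ∧ ∃ s : ℝ, 0 < s ∧ s < 1 ∧
      p = (1 - s) • ev w + s • ev v := by
  obtain ⟨w, hw, s, h0, h1, hps⟩ := dr_form hp hv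
  by_cases hwv : w = v
  · left
    rw [hps, hwv, ← add_smul]
    simp
  · rcases h1.lt_or_eq with h | h
    · right
      refine ⟨w, ?_, hwv, hw.resolve_left hwv, s, h0, h, hps⟩
      by_contra hwS
      have := hS w hwS
      rw [hps] at this
      simp only [Pi.add_apply, Pi.smul_apply, smul_eq_mul, dr_ev_self, dr_ev_ne hwv] at this
      linarith
    · left
      rw [hps, h]
      simp

private theorem dr_lin_update (φ : V → ℂ) (v : V) (z : ℂ) {p : V → ℝ} (hp : p v = 0) :
    lin (Function.update φ v z) p = lin φ p := by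
  unfold lin
  refine Finset.sum_congr rfl fun w _ => ?_
  by_cases hw : w = v
  · subst hw
    simp [hp]
  · rw [Function.update_of_ne hw]

private theorem dr_lin_seg (φ : V → ℂ) (a b : V) (s : ℝ) :
    lin φ ((1 - s) • ev a + s • ev b) = (1 - s) * φ a + s * φ b := by
  rw [lin_add, lin_smul, lin_smul, lin_ev, lin_ev]
  push_cast
  ring

private theorem dr_unique {G : SimpleGraph V} (hG : G.IsTree) {S : Finset V}
    (hS : ∀ x ∈ S, ∀ y ∈ S, ∃ w : G.Walk x y, ∀ z ∈ w.support, z ∈ S) {v : V} (hv : v ∉ S)
    {y z : V} (hy : y ∈ S) (hz : z ∈ S) (hyv : G.Adj y v) (hzv : G.Adj z v) : y = z := by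
  by_contra hne
  obtain ⟨w, hw⟩ := hS y hy z hz
  have h1 : (w.bypass).IsPath := w.bypass_isPath
  have h2 : (SimpleGraph.Walk.cons hyv (SimpleGraph.Walk.cons hzv.symm SimpleGraph.Walk.nil)).IsPath := by
    simp [SimpleGraph.Walk.cons_isPath_iff, hyv.ne, hzv.ne.symm, hne]
  have h3 := (hG.isAcyclic.subsingleton_path y z).elim ⟨_, h1⟩ ⟨_, h2⟩
  have h4 : w.bypass = SimpleGraph.Walk.cons hyv (SimpleGraph.Walk.cons hzv.symm SimpleGraph.Walk.nil) :=
    congrArg Subtype.val h3
  have h5 : v ∈ w.bypass.support := by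
    rw [h4]
    simp
  exact hv (hw v (w.support_bypass_subset_support h5))

/-- a drawing of the part of the tree in `S` -/
private def DrP (G : SimpleGraph V) (a : V → V → ℂ) (S : Finset V) : Prop :=
  ∃ (φ : V → ℂ) (c : V → ℂ) (l : V → V → ℝ), (∀ x, ‖c x‖ = 1) ∧
    (∀ x ∈ S, ∀ y ∈ S, G.Adj x y → 0 < l x y ∧ φ y = φ x + (l x y : ℂ) * (c x * a x y)) ∧
    InjOn (lin φ) {p | p ∈ real G ∧ ∀ v, v ∉ S → p v = 0}

private theorem dr_step {G : SimpleGraph V} (a : V → V → ℂ) (ha : ∀ x y, G.Adj x y → ‖a x y‖ = 1)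
    (hinj : ∀ x y z, G.Adj x y → G.Adj x z → a x y = a x z → y = z)
    {S : Finset V} {v y : V} (hv : v ∉ S) (hy : y ∈ S) (hyv : G.Adj y v)
    (hu : ∀ z ∈ S, G.Adj z v → z = y) (hP : DrP G a S) : DrP G a (insert v S) := by
  obtain ⟨φ, c, l, hc, hl, hφ⟩ := hP
  have hyv' : y ≠ v := hyv.ne
  set Z : Set (V → ℝ) := {p | p ∈ real G ∧ (∀ w, w ∉ S → p w = 0) ∧ p y = 0} with hZ
  have hZc : IsCompact Z := by
    have : Z = real G ∩ ((⋂ w ∈ {w | w ∉ S}, {p : V → ℝ | p w = 0}) ∩ {p | p y = 0}) := by
      ext p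
      simp [hZ]
      tauto
    rw [this]
    refine (dr_compact G).inter_right ?_
    refine IsClosed.inter (isClosed_biInter fun w _ => ?_) ?_
    · exact isClosed_eq (continuous_apply w) continuous_const
    · exact isClosed_eq (continuous_apply y) continuous_const
  have hZi : IsClosed (lin φ '' Z) := (hZc.image (lin_continuous φ)).isClosed
  have hyZ : φ y ∉ lin φ '' Z := by
    rintro ⟨p, ⟨hp1, hp2, hp3⟩, hp⟩
    have : p = ev y := by
      apply hφ ⟨hp1, hp2⟩ ⟨dr_ev_mem G y, fun w hw => dr_ev_ne (fun h => hw (h ▸ hy))⟩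
      rw [hp, lin_ev]
    rw [this, dr_ev_self] at hp3
    exact one_ne_zero hp3
  obtain ⟨ρ, hρ, hball⟩ := Metric.isOpen_iff.1 hZi.isOpen_compl (φ y) hyZ
  have hρZ : ∀ p ∈ Z, ρ ≤ dist (lin φ p) (φ y) := by
    intro p hp
    by_contra hlt
    push Not at hlt
    exact hball (Metric.mem_ball.2 hlt) ⟨p, hp, rfl⟩
  -- the new data, with length `ρ / 2`
  set r : ℝ := ρ / 2 with hr
  have hr0 : 0 < r := by positivity
  have hcy : c y ≠ 0 := by
    intro h
    have := hc y
    rw [h] at this
    simp at this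
  have hayv : a y v ≠ 0 := by
    intro h
    have := ha y v hyv
    rw [h] at this
    simp at this
  have havy : a v y ≠ 0 := by
    intro h
    have := ha v y hyv.symm
    rw [h] at this
    simp at this
  set φ' : V → ℂ := Function.update φ v (φ y + (r : ℂ) * (c y * a y v)) with hφ'
  have hφ'v : φ' v = φ y + (r : ℂ) * (c y * a y v) := by simp [hφ']
  have hφ'ne : ∀ x, x ≠ v → φ' x = φ x := fun x hx => by simp [hφ', Function.update_of_ne hx]
  refine ⟨φ', Function.update c v (-(c y * a y v) / a v y),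
    fun x z => if x = v ∨ z = v then r else l x z, ?_, ?_, ?_⟩
  · intro x
    by_cases hx : x = v
    · subst hx
      simp [hc y, ha y x hyv, ha x y hyv.symm]
    · rw [Function.update_of_ne hx, hc x]
  · intro x hx z hz hxz
    rw [Finset.mem_insert] at hx hz
    by_cases hxv : x = v
    · subst hxv
      have hzS : z ∈ S := hz.resolve_left hxz.ne'
      have hzy : z = y := hu z hzS hxz.symm
      subst hzy
      refine ⟨by simp [hr0], ?_⟩
      rw [hφ'ne z hyv', hφ'v, Function.update_self]
      simp only [true_or, if_true]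
      field_simp
      ring
    · have hxS : x ∈ S := hx.resolve_left hxv
      by_cases hzv : z = v
      · subst hzv
        have hxy : x = y := hu x hxS hxz
        subst hxy
        refine ⟨by simp [hr0], ?_⟩
        rw [hφ'ne x hyv', hφ'v, Function.update_of_ne hxv]
        simp
      · have hzS : z ∈ S := hz.resolve_left hzv
        rw [hφ'ne x hxv, hφ'ne z hzv, Function.update_of_ne hxv]
        simp only [hxv, hzv, or_self, if_false]
        exact hl x hxS z hzS hxz
  · -- normal form of the new points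
    have hnew : ∀ p, p ∈ real G → (∀ w, w ∉ insert v S → p w = 0) → p v ≠ 0 →
        ∃ s : ℝ, 0 < s ∧ s ≤ 1 ∧ p = (1 - s) • ev y + s • ev v := by
      intro p hp hpS hpv
      rcases dr_form' hp hpS hpv with h | ⟨w, hwS, hwv, hadj, s, h0, h1, hps⟩
      · exact ⟨1, one_pos, le_rfl, by simp [h]⟩
      · have : w = y := hu w ((Finset.mem_insert.1 hwS).resolve_left hwv) hadj
        subst this
        exact ⟨s, h0, h1.le, hps⟩
    have hlin : ∀ s : ℝ, lin φ' ((1 - s) • ev y + s • ev v) =
        φ y + ((s * r : ℝ) : ℂ) * (c y * a y v) := by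
      intro s
      rw [dr_lin_seg, hφ'ne y hyv', hφ'v]
      push_cast
      ring
    have hold : ∀ p : V → ℝ, (∀ w, w ∉ insert v S → p w = 0) → p v = 0 → ∀ w, w ∉ S → p w = 0 := by
      intro p hp hpv w hw
      by_cases hwv : w = v
      · rw [hwv, hpv]
      · exact hp w (by simp [hw, hwv])
    -- an old point and a new point have different images
    have hdiff : ∀ p q : V → ℝ, p ∈ real G → (∀ w, w ∉ insert v S → p w = 0) → p v ≠ 0 →
        q ∈ real G → (∀ w, w ∉ insert v S → q w = 0) → q v = 0 → lin φ' p = lin φ' q → False := by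
      intro p q hp hpS hpv hq hqS hqv hpq
      obtain ⟨s, hs0, hs1, rfl⟩ := hnew p hp hpS hpv
      have hqS' := hold q hqS hqv
      rw [hlin, hφ', dr_lin_update φ v _ hqv] at hpq
      have hd : dist (lin φ q) (φ y) = s * r := by
        rw [← hpq, dist_eq_norm]
        simp [hc y, ha y v hyv, abs_of_pos hs0, abs_of_pos hr0]
      have hqy : q y ≠ 0 := by
        intro h
        have := hρZ q ⟨hq, hqS', h⟩
        rw [hd] at this
        have : s * r ≤ r := by nlinarith
        linarith
      have hsr : 0 < s * r := by positivity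
      rcases dr_form' hq hqS' hqy with h | ⟨z, hzS, hzy, hadj, t, h0, h1, hqt⟩
      · rw [h, lin_ev, dist_self] at hd
        exact hsr.ne hd
      · obtain ⟨hl0, hl1⟩ := hl y hy z hzS hadj.symm
        rw [hqt, dr_lin_seg, hl1] at hpq
        have e1 : ((s * r : ℝ) : ℂ) * a y v = (((1 - t) * l y z : ℝ) : ℂ) * a y z := by
          apply mul_left_cancel₀ hcy
          push_cast
          push_cast at hpq
          linear_combination hpq
        have e2 : s * r = (1 - t) * l y z := by
          have := congrArg norm e1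
          rw [norm_mul, norm_mul, ha y v hyv, ha y z hadj.symm, Complex.norm_real,
            Complex.norm_real, Real.norm_of_nonneg hsr.le, Real.norm_of_nonneg] at this
          · linarith
          · have : 0 < 1 - t := by linarith
            positivity
        rw [← e2] at e1
        have e3 : a y v = a y z := by
          refine mul_left_cancel₀ ?_ e1
          exact_mod_cast hsr.ne'
        exact hv (hinj y v z hyv hadj.symm e3 ▸ hzS)
    rintro p ⟨hp, hpS⟩ q ⟨hq, hqS⟩ hpq
    by_cases hpv : p v = 0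
    · by_cases hqv : q v = 0
      · rw [hφ', dr_lin_update φ v _ hpv, dr_lin_update φ v _ hqv] at hpq
        exact hφ ⟨hp, hold p hpS hpv⟩ ⟨hq, hold q hqS hqv⟩ hpq
      · exact (hdiff q p hq hqS hqv hp hpS hpv hpq.symm).elim
    · by_cases hqv : q v = 0
      · exact (hdiff p q hp hpS hpv hq hqS hqv hpq).elim
      · obtain ⟨s, hs0, hs1, rfl⟩ := hnew p hp hpS hpv
        obtain ⟨t, ht0, ht1, rfl⟩ := hnew q hq hqS hqv
        rw [hlin, hlin] at hpq
        have h1 : ((s * r : ℝ) : ℂ) = ((t * r : ℝ) : ℂ) :=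
          mul_right_cancel₀ (mul_ne_zero hcy hayv) (add_left_cancel hpq)
        have h2 : s * r = t * r := by exact_mod_cast h1
        have h3 : s = t := mul_right_cancel₀ hr0.ne' h2
        rw [h3]

private theorem dr_exists {G : SimpleGraph V} (hG : G.IsTree)
    (a : V → V → ℂ) (ha : ∀ x y, G.Adj x y → ‖a x y‖ = 1)
    (hinj : ∀ x y z, G.Adj x y → G.Adj x z → a x y = a x z → y = z) (n : ℕ) :
    1 ≤ n → n ≤ Fintype.card V → ∃ S : Finset V, S.card = n ∧
      (∀ x ∈ S, ∀ y ∈ S, ∃ w : G.Walk x y, ∀ z ∈ w.support, z ∈ S) ∧ DrP G a S := by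
  induction n with
  | zero => intro h; omega
  | succ n ih =>
    intro _ hn
    rcases Nat.eq_zero_or_pos n with h0 | h0
    · subst h0
      obtain ⟨r⟩ := hG.connected.nonempty
      refine ⟨{r}, by simp, ?_, fun _ => 0, fun _ => 1, fun _ _ => 1, by simp, ?_, ?_⟩
      · intro x hx y hy
        rw [Finset.mem_singleton] at hx hy
        subst hx
        subst hy
        exact ⟨SimpleGraph.Walk.nil, by simp⟩
      · intro x hx y hy hxy
        rw [Finset.mem_singleton] at hx hy
        exact (hxy.ne (hx.trans hy.symm)).elim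
      · rintro p ⟨hp, hpS⟩ q ⟨hq, hqS⟩ -
        rw [dr_single hp (r := r) (fun v hv => hpS v (by simp [hv])),
          dr_single hq (r := r) (fun v hv => hqS v (by simp [hv]))]
    · obtain ⟨S, hcard, hconn, hP⟩ := ih h0 (by omega)
      have hSne : S.Nonempty := by
        rw [← Finset.card_pos]; omega
      obtain ⟨x, hx⟩ := hSne
      have : ∃ u, u ∉ S := by
        by_contra hcon
        push Not at hcon
        have : S = Finset.univ := Finset.eq_univ_iff_forall.2 hcon
        rw [this, Finset.card_univ] at hcard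
        omega
      obtain ⟨u, hu⟩ := this
      obtain ⟨w⟩ := hG.connected.preconnected x u
      obtain ⟨d, -, hd1, hd2⟩ := w.exists_boundary_dart (S : Set V) (by exact_mod_cast hx)
        (by exact_mod_cast hu)
      have hy : d.fst ∈ S := by exact_mod_cast hd1
      have hv : d.snd ∉ S := by exact_mod_cast hd2
      have hadj : G.Adj d.fst d.snd := d.adj
      refine ⟨insert d.snd S, by rw [Finset.card_insert_of_notMem hv, hcard], ?_,
        dr_step a ha hinj hv hy hadj ?_ hP⟩
      · have key : ∀ z ∈ S, ∃ w : G.Walk d.snd z, ∀ z' ∈ w.support, z' ∈ insert d.snd S := by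
          intro z hz
          obtain ⟨w, hw⟩ := hconn d.fst hy z hz
          refine ⟨SimpleGraph.Walk.cons hadj.symm w, ?_⟩
          intro z' hz'
          rw [SimpleGraph.Walk.support_cons, List.mem_cons] at hz'
          rcases hz' with h | h
          · rw [h]; exact Finset.mem_insert_self _ _
          · exact Finset.mem_insert_of_mem (hw z' h)
        intro x hx y hy
        rw [Finset.mem_insert] at hx hy
        rcases hx with hx | hx
        · rcases hy with hy | hy
          · subst hx
            rw [hy]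
            exact ⟨SimpleGraph.Walk.nil, by simp⟩
          · rw [hx]
            exact key y hy
        · rcases hy with hy | hy
          · rw [hy]
            obtain ⟨w, hw⟩ := key x hx
            refine ⟨w.reverse, ?_⟩
            intro z hz
            rw [SimpleGraph.Walk.support_reverse, List.mem_reverse] at hz
            exact hw z hz
          · obtain ⟨w, hw⟩ := hconn x hx y hy
            exact ⟨w, fun z hz => Finset.mem_insert_of_mem (hw z hz)⟩
      · intro z hz hzv
        exact dr_unique hG hconn hv hz hy hzv hadj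

end Draw

theorem exists_drawing {V : Type} [Fintype V] [DecidableEq V] (G : SimpleGraph V) (hG : G.IsTree)
    (a : V → V → ℂ) (ha : ∀ x y, G.Adj x y → ‖a x y‖ = 1)
    (hinj : ∀ x y z, G.Adj x y → G.Adj x z → a x y = a x z → y = z) :
    ∃ (φ : V → ℂ) (c : V → ℂ) (l : V → V → ℝ), (∀ x, ‖c x‖ = 1) ∧
      (∀ x y, G.Adj x y → 0 < l x y ∧ φ y = φ x + (l x y : ℂ) * (c x * a x y)) ∧
      InjOn (lin φ) (real G) := by
  have hcard : 1 ≤ Fintype.card V := by
    obtain ⟨r⟩ := hG.connected.nonempty
    exact Fintype.card_pos_iff.2 ⟨r⟩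
  obtain ⟨S, hS, -, φ, c, l, hc, hl, hφ⟩ := dr_exists hG a ha hinj (Fintype.card V) hcard le_rfl
  have hu : S = Finset.univ := Finset.eq_univ_of_card S hS
  subst hu
  refine ⟨φ, c, l, hc, fun x y h => hl x (Finset.mem_univ x) y (Finset.mem_univ y) h, ?_⟩
  intro p hp q hq hpq
  exact hφ ⟨hp, fun v hv => (hv (Finset.mem_univ v)).elim⟩
    ⟨hq, fun v hv => (hv (Finset.mem_univ v)).elim⟩ hpq

end Pool.Agent.DB
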