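import Pool.Agent.DB.G.Legs

/-!
# DB-G-Spiral: the local model of the twist map
-/

set_option autoImplicit false

namespace Pool.Agent.PL

open Set Filter Topology

variable {d : ℕ}

/-- clamp to `[0,1]` -/
private noncomputable def cl (x : ℝ) : ℝ := min 1 (max 0 x)

/-- tent function -/
private noncomputable def tent (x : ℝ) : ℝ := max 0 (1 - |2 * x - 1|)

private theorem cl_cont : Continuous cl := by unfold cl; fun_prop
private theorem tent_cont : Continuous tent := by unfold tent; fun_prop
private theorem cl_nonneg (x : ℝ) : 0 ≤ cl x := le_min zero_le_one (le_max_left _ _)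
private theorem cl_le_one (x : ℝ) : cl x ≤ 1 := min_le_left _ _
private theorem cl_mono : Monotone cl := fun _ _ h => min_le_min le_rfl (max_le_max le_rfl h)
private theorem cl_zero {x : ℝ} (h : x ≤ 0) : cl x = 0 := by
  rw [cl, max_eq_left h, min_eq_right zero_le_one]
private theorem cl_one {x : ℝ} (h : 1 ≤ x) : cl x = 1 := by
  rw [cl, max_eq_right (zero_le_one.trans h), min_eq_left h]
private theorem cl_self {x : ℝ} (h0 : 0 ≤ x) (h1 : x ≤ 1) : cl x = x := by
  rw [cl, max_eq_right h0, min_eq_right h1]
private theorem tent_nonneg (x : ℝ) : 0 ≤ tent x := le_max_left _ _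
private theorem tent_le_one (x : ℝ) : tent x ≤ 1 :=
  max_le zero_le_one (by linarith [abs_nonneg (2 * x - 1)])
private theorem tent_le_left {x : ℝ} (h : 0 ≤ x) : tent x ≤ 2 * x :=
  max_le (by linarith) (by linarith [neg_abs_le (2 * x - 1)])
private theorem tent_le_right {x : ℝ} (h : x ≤ 1) : tent x ≤ 2 * (1 - x) :=
  max_le (by linarith) (by linarith [le_abs_self (2 * x - 1)])
private theorem tent_left {x : ℝ} (h : x ≤ 0) : tent x = 0 :=
  le_antisymm (max_le le_rfl (by linarith [neg_abs_le (2 * x - 1)])) (tent_nonneg x)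
private theorem tent_right {x : ℝ} (h : 1 ≤ x) : tent x = 0 :=
  le_antisymm (max_le le_rfl (by linarith [le_abs_self (2 * x - 1)])) (tent_nonneg x)

/-- interpolation of the sequence `c a, c (a+1), ..., c (a+M)` -/
private noncomputable def Qf (c : ℕ → ℝ) (a M : ℕ) (y : ℝ) : ℝ :=
  ∑ i ∈ Finset.range M, (c (a + i) - c (a + i + 1)) * cl (((a + i + 1 : ℕ) : ℝ) - y)

private theorem Qf_cont (c : ℕ → ℝ) (a M : ℕ) : Continuous (Qf c a M) := by
  unfold Qf
  refine continuous_finsetSum _ fun i _ => ?_
  exact continuous_const.mul (cl_cont.comp (by fun_prop))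

private theorem Qf_anti {c : ℕ → ℝ} {a M : ℕ} (hc : ∀ i, a ≤ i → i < a + M → c (i + 1) ≤ c i) :
    Antitone (Qf c a M) := by
  intro y y' h
  unfold Qf
  refine Finset.sum_le_sum fun i hi => ?_
  rw [Finset.mem_range] at hi
  refine mul_le_mul_of_nonneg_left (cl_mono (by linarith)) ?_
  have := hc (a + i) (by omega) (by omega)
  linarith

private theorem Qf_nonneg {c : ℕ → ℝ} {a M : ℕ} (hc : ∀ i, a ≤ i → i < a + M → c (i + 1) ≤ c i)
    (y : ℝ) : 0 ≤ Qf c a M y := by
  unfold Qf
  refine Finset.sum_nonneg fun i hi => ?_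
  rw [Finset.mem_range] at hi
  refine mul_nonneg ?_ (cl_nonneg _)
  have := hc (a + i) (by omega) (by omega)
  linarith

private theorem Qf_le {c : ℕ → ℝ} {a M : ℕ} (hc : ∀ i, a ≤ i → i < a + M → c (i + 1) ≤ c i)
    (y : ℝ) : Qf c a M y ≤ c a - c (a + M) := by
  have h1 : Qf c a M y ≤ ∑ i ∈ Finset.range M, (c (a + i) - c (a + (i + 1))) := by
    unfold Qf
    refine Finset.sum_le_sum fun i hi => ?_
    rw [Finset.mem_range] at hi
    have := hc (a + i) (by omega) (by omega)
    exact mul_le_of_le_one_right (by linarith) (cl_le_one _)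
  rw [Finset.sum_range_sub' (fun i => c (a + i)) M] at h1
  simpa using h1

private theorem Qf_int (c : ℕ → ℝ) (a M t : ℕ) (ht : t ≤ M) :
    Qf c a M ((a + t : ℕ) : ℝ) = c (a + t) - c (a + M) := by
  unfold Qf
  induction M, ht using Nat.le_induction with
  | base =>
    rw [sub_self]
    refine Finset.sum_eq_zero fun i hi => ?_
    rw [Finset.mem_range] at hi
    have h1 : ((a + i + 1 : ℕ) : ℝ) ≤ ((a + t : ℕ) : ℝ) := by exact_mod_cast (by omega)
    rw [cl_zero (by linarith), mul_zero]
  | succ M hM ih =>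
    rw [Finset.sum_range_succ, ih]
    have h1 : ((a + t : ℕ) : ℝ) + 1 ≤ ((a + M + 1 : ℕ) : ℝ) := by exact_mod_cast (by omega)
    rw [cl_one (by linarith), mul_one]
    have : a + (M + 1) = a + M + 1 := by omega
    rw [this]
    ring

private theorem Qf_zero (c : ℕ → ℝ) (a M : ℕ) {y : ℝ} (hy : ((a + M : ℕ) : ℝ) ≤ y) :
    Qf c a M y = 0 := by
  unfold Qf
  refine Finset.sum_eq_zero fun i hi => ?_
  rw [Finset.mem_range] at hi
  have h1 : ((a + i + 1 : ℕ) : ℝ) ≤ ((a + M : ℕ) : ℝ) := by exact_mod_cast (by omega)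
  rw [cl_zero (by linarith), mul_zero]

/-- the arm which passes position `i` -/
private def idx (d N i : ℕ) : ℕ := N - (N - i) % d

private theorem idx_le (N i : ℕ) : idx d N i ≤ N := Nat.sub_le _ _

private theorem idx_gt (hd : 0 < d) {N K i : ℕ} (hN : N = K + d) : K + 1 ≤ idx d N i := by
  unfold idx
  have := Nat.mod_lt (N - i) hd
  omega

private theorem idx_ge {N i : ℕ} (hi : i ≤ N) : i ≤ idx d N i := by
  unfold idx
  have := Nat.mod_le (N - i) d
  omega

private theorem idx_of {N K E k : ℕ} (hN : N = K + d) (h1 : K + 1 ≤ E) (h2 : E ≤ N)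
    (hk : k * d ≤ E) : idx d N (E - k * d) = E := by
  unfold idx
  have h3 : N - (E - k * d) = (N - E) + k * d := by omega
  rw [h3, Nat.add_mul_mod_self_right, Nat.mod_eq_of_lt (by omega)]
  omega

private theorem idx_succ (hd : 0 < d) {N K i : ℕ} (hN : N = K + d) (hi : i < N) :
    (idx d N i < N ∧ idx d N (i + 1) = idx d N i + 1) ∨
    (idx d N i = N ∧ idx d N (i + 1) = K + 1 ∧ i ≤ K) := by
  unfold idx
  have h1 : N - i = (N - (i + 1)) + 1 := by omega
  have h2 := Nat.mod_lt (N - (i + 1)) hd
  have h3 := Nat.div_add_mod (N - (i + 1)) d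
  set r := (N - (i + 1)) % d with hr
  set q := (N - (i + 1)) / d with hq
  rcases Nat.lt_or_ge (r + 1) d with h | h
  · left
    have h4 : (N - i) % d = r + 1 := by
      rw [h1, ← h3, add_assoc, Nat.mul_add_mod, Nat.mod_eq_of_lt h]
    rw [h4]
    have : r ≤ N - (i + 1) := by omega
    constructor <;> omega
  · right
    have h4 : (N - i) % d = 0 := by
      have h5 : N - i = d * (q + 1) := by
        rw [h1, ← h3, Nat.mul_succ]
        omega
      rw [h5, Nat.mul_mod_right]
    rw [h4]
    have h6 : r ≤ N - (i + 1) := by omega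
    refine ⟨by omega, by omega, by omega⟩

/-- depth sequence of sector `j` -/
private noncomputable def cc (d N : ℕ) (D : ℕ → ℕ → ℝ) (j i : ℕ) : ℝ :=
  if i ≤ N then D (idx d N i) (j + idx d N i - i) else 0

private theorem cc_anti (hd : 0 < d) {N K : ℕ} (hN : N = K + d) {D : ℕ → ℕ → ℝ}
    (hD0 : ∀ E m, 0 ≤ D E m)
    (hDa : ∀ E m, K + 1 ≤ E → E < K + d → m < E → D (E + 1) m ≤ D E m)
    (hDb : ∀ m, d ≤ m → m < K + d → D (K + 1) (m - d) ≤ D (K + d) m) {j i : ℕ}
    (hi : j + 1 ≤ i) (hi' : i < N + 1) : cc d N D j (i + 1) ≤ cc d N D j i := by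
  unfold cc
  rw [if_pos (by omega : i ≤ N)]
  split_ifs with h
  · have hge := idx_ge (d := d) (show i ≤ N by omega)
    have hgt := idx_gt hd (i := i) hN
    rcases idx_succ hd hN (show i < N by omega) with ⟨h1, h2⟩ | ⟨h1, h2, h3⟩
    · rw [h2]
      have h4 : j + (idx d N i + 1) - (i + 1) = j + idx d N i - i := by omega
      rw [h4]
      exact hDa _ _ hgt (by omega) (by omega)
    · rw [h2, h1]
      have h4 : j + (K + 1) - (i + 1) = (j + N - i) - d := by omega
      rw [h4, hN]
      exact hDb _ (by omega) (by omega)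
  · exact hD0 _ _

/-- the spikes -/
private noncomputable def sp (d N : ℕ) (D : ℕ → ℕ → ℝ) (ν v : ℝ) : ℝ :=
  ∑ j ∈ Finset.range d, tent (v - j) * Qf (cc d N D j) (j + 1) (N - j) (ν + v)

private theorem sp_cont (d N : ℕ) (D : ℕ → ℕ → ℝ) :
    Continuous fun p : ℝ × ℝ => sp d N D p.1 p.2 := by
  unfold sp
  refine continuous_finsetSum _ fun j _ => ?_
  exact (tent_cont.comp (by fun_prop)).mul ((Qf_cont _ _ _).comp (by fun_prop))

private theorem sp_eq {N : ℕ} (D : ℕ → ℕ → ℝ) (ν : ℝ) {v : ℝ} {j : ℕ} (hj : j < d) (h0 : j ≤ v)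
    (h1 : v ≤ j + 1) :
    sp d N D ν v = tent (v - j) * Qf (cc d N D j) (j + 1) (N - j) (ν + v) := by
  unfold sp
  rw [Finset.sum_eq_single j]
  · intro j' _ hne
    rcases lt_or_gt_of_ne hne with h | h
    · have : (j' : ℝ) + 1 ≤ j := by exact_mod_cast h
      rw [tent_right (by linarith), zero_mul]
    · have : (j : ℝ) + 1 ≤ j' := by exact_mod_cast h
      rw [tent_left (by linarith), zero_mul]
  · intro h
    exact absurd (Finset.mem_range.2 hj) h

private theorem exists_sector (hd : 0 < d) {v : ℝ} (h0 : 0 ≤ v) (h1 : v ≤ d) :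
    ∃ j : ℕ, j < d ∧ (j : ℝ) ≤ v ∧ v ≤ j + 1 := by
  rcases lt_or_ge v d with h | h
  · exact ⟨⌊v⌋₊, (Nat.floor_lt h0).2 h, Nat.floor_le h0, (Nat.lt_floor_add_one v).le⟩
  · refine ⟨d - 1, by omega, ?_, ?_⟩
    · rw [Nat.cast_sub hd]
      push_cast
      linarith
    · rw [Nat.cast_sub hd]
      push_cast
      linarith

private theorem sp_int {N : ℕ} (D : ℕ → ℕ → ℝ) (ν : ℝ) (m : ℕ) : sp d N D ν m = 0 := by
  unfold sp
  refine Finset.sum_eq_zero fun j _ => ?_
  rcases Nat.lt_or_ge j m with h | h
  · have : (j : ℝ) + 1 ≤ m := by exact_mod_cast h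
    rw [tent_right (by linarith), zero_mul]
  · have : (m : ℝ) ≤ j := by exact_mod_cast h
    rw [tent_left (by linarith), zero_mul]

private theorem sp_zero {N : ℕ} (hN : d ≤ N) (D : ℕ → ℕ → ℝ) {ν v : ℝ} (h : (N : ℝ) + 1 ≤ ν + v) :
    sp d N D ν v = 0 := by
  unfold sp
  refine Finset.sum_eq_zero fun j hj => ?_
  rw [Finset.mem_range] at hj
  have h1 : ((j + 1 + (N - j) : ℕ) : ℝ) = N + 1 := by
    rw [show j + 1 + (N - j) = N + 1 by omega]
    push_cast
    ring
  rw [Qf_zero _ _ _ (by rw [h1]; exact h), mul_zero]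

/-- the squeeze on one sector -/
private noncomputable def S (e f : ℝ) : ℝ := max (e * f) (1 - (1 - f) / e)

private theorem S_cont (e : ℝ) : Continuous (S e) := by
  unfold S
  fun_prop

private theorem S_mono {e : ℝ} (he : 0 < e) : StrictMono (S e) := by
  intro f g h
  refine max_lt_max (mul_lt_mul_of_pos_left h he) ?_
  have : (1 - g) / e < (1 - f) / e := div_lt_div_of_pos_right (by linarith) he
  linarith

private theorem S_zero {e : ℝ} (he : 0 < e) (he1 : e ≤ 1) : S e 0 = 0 := by
  unfold S
  rw [mul_zero, sub_zero, max_eq_left]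
  have : 1 ≤ 1 / e := by rw [le_div_iff₀ he]; linarith
  linarith

private theorem S_one {e : ℝ} (he1 : e ≤ 1) : S e 1 = 1 := by
  unfold S
  rw [mul_one, sub_self, zero_div, sub_zero, max_eq_right he1]

private theorem tent_S {e : ℝ} (he : 0 < e) (he1 : e ≤ 1) {f : ℝ} (h0 : 0 ≤ f) (h1 : f ≤ 1) :
    tent f * S e f ≤ 2 * e := by
  have hS0 : 0 ≤ S e f := le_max_of_le_left (by positivity)
  have hS1 : S e f ≤ 1 := by
    have := (S_mono he).monotone h1
    rwa [S_one he1] at this
  rcases le_total (1 - (1 - f) / e) (e * f) with h | h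
  · have h2 : S e f = e * f := max_eq_left h
    rw [h2]
    have h3 : tent f ≤ 1 := tent_le_one f
    have h4 : e * f ≤ e := by nlinarith
    nlinarith [tent_nonneg f, mul_nonneg he.le h0]
  · have h2 : 0 ≤ 1 - (1 - f) / e := le_trans (by positivity) h
    have h3 : (1 - f) / e ≤ 1 := by linarith
    rw [div_le_one he] at h3
    have h4 := tent_le_right h1
    calc tent f * S e f ≤ tent f * 1 := mul_le_mul_of_nonneg_left hS1 (tent_nonneg f)
      _ ≤ 2 * e := by linarith

/-- the squeeze -/
private noncomputable def sg (d : ℕ) (e v : ℝ) : ℝ := ∑ m ∈ Finset.range d, S e (cl (v - m))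

private theorem sg_cont (d : ℕ) (e : ℝ) : Continuous (sg d e) := by
  unfold sg
  exact continuous_finsetSum _ fun m _ => (S_cont e).comp (cl_cont.comp (by fun_prop))

private theorem sg_mono {e : ℝ} (he : 0 < e) : StrictMonoOn (sg d e) (Icc 0 (d : ℝ)) := by
  intro v hv w hw h
  unfold sg
  refine Finset.sum_lt_sum (fun m _ => (S_mono he).monotone (cl_mono (by linarith))) ?_
  have hvd : v < d := lt_of_lt_of_le h hw.2
  refine ⟨⌊v⌋₊, Finset.mem_range.2 ((Nat.floor_lt hv.1).2 hvd), S_mono he ?_⟩
  have h1 := Nat.floor_le hv.1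
  have h2 := Nat.lt_floor_add_one v
  rw [cl_self (by linarith) (by linarith)]
  exact lt_min (by linarith) (lt_max_of_lt_right (by linarith))

private theorem sg_eq {e : ℝ} (he : 0 < e) (he1 : e ≤ 1) {j : ℕ} (hj : j < d) {f : ℝ}
    (h0 : 0 ≤ f) (h1 : f ≤ 1) : sg d e (j + f) = j + S e f := by
  have key : ∀ n : ℕ, n ≤ j → ∑ m ∈ Finset.range n, S e (cl ((j : ℝ) + f - m)) = n := by
    intro n
    induction n with
    | zero => simp
    | succ n ih =>
      intro hn
      rw [Finset.sum_range_succ, ih (by omega)]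
      have : ((n + 1 : ℕ) : ℝ) ≤ j := by exact_mod_cast hn
      push_cast at this
      rw [cl_one (by linarith), S_one he1]
      push_cast
      ring
  have key2 : ∀ n : ℕ, j + 1 ≤ n → ∑ m ∈ Finset.range n, S e (cl ((j : ℝ) + f - m)) =
      j + S e f := by
    intro n hn
    induction n, hn using Nat.le_induction with
    | base =>
      rw [Finset.sum_range_succ, key j le_rfl]
      rw [show (j : ℝ) + f - j = f by ring, cl_self h0 h1]
    | succ n hn ih =>
      rw [Finset.sum_range_succ, ih]
      have : ((j + 1 : ℕ) : ℝ) ≤ n := by exact_mod_cast hn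
      push_cast at this
      rw [cl_zero (by linarith), S_zero he he1, add_zero]
  exact key2 d hj

private theorem sg_int {e : ℝ} (he : 0 < e) (he1 : e ≤ 1) {m : ℕ} (hd : 0 < d) (hm : m ≤ d) :
    sg d e m = m := by
  rcases Nat.lt_or_ge m d with h | h
  · have := sg_eq he he1 h le_rfl zero_le_one
    rwa [add_zero, S_zero he he1, add_zero] at this
  · have h1 := sg_eq (d := d) he he1 (show d - 1 < d by omega) zero_le_one le_rfl
    rw [S_one he1] at h1
    have h2 : ((d - 1 : ℕ) : ℝ) + 1 = m := by
      have : m = d - 1 + 1 := by omega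
      rw [this]
      push_cast
      ring
    rwa [h2] at h1

private theorem pol_mod (hd : 0 < d) (r : ℝ) (m : ℕ) : pol d r ((m % d : ℕ) : ℝ) = pol d r m := by
  have h := pol_add_nat hd r ((m % d : ℕ) : ℝ) (m / d)
  rw [← h]
  congr 1
  have := Nat.mod_add_div m d
  conv_rhs => rw [← this]
  push_cast
  ring

/-- reparametrisation of arm `E` -/
private noncomputable def kk (C ρ : ℝ) (N E : ℕ) (r : ℝ) : ℝ :=
  min (C * r) (max r (((E + 1) * r + ρ * ((N : ℝ) + 1 - E)) / (N + 2)))

private theorem kk_cont (C ρ : ℝ) (N E : ℕ) : Continuous (kk C ρ N E) := by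
  unfold kk
  fun_prop

private theorem kk_zero (C ρ : ℝ) (N E : ℕ) : kk C ρ N E 0 = 0 := by
  unfold kk
  rw [mul_zero]
  exact min_eq_left (le_max_left _ _)

private theorem kk_mono {C ρ : ℝ} (hC : 0 < C) (N E : ℕ) : StrictMono (kk C ρ N E) := by
  intro r s h
  refine min_lt_min (mul_lt_mul_of_pos_left h hC) (max_lt_max h ?_)
  refine div_lt_div_of_pos_right ?_ (by positivity)
  have : ((E : ℝ) + 1) * r < (E + 1) * s := mul_lt_mul_of_pos_left h (by positivity)
  linarith

private theorem kk_ge {C ρ : ℝ} (hC : 1 ≤ C) (N E : ℕ) {r : ℝ} (hr : 0 ≤ r) : r ≤ kk C ρ N E r :=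
  le_min (by nlinarith) (le_max_left _ _)

private theorem kk_eq {C ρ : ℝ} (hC : 1 ≤ C) (hρ : 0 < ρ) {N E : ℕ} (hE : E ≤ N) {r : ℝ}
    (hr : ρ ≤ r) : kk C ρ N E r = r := by
  have h0 : 0 ≤ r := hρ.le.trans hr
  have hE' : (E : ℝ) ≤ N := by exact_mod_cast hE
  have h1 : ((E + 1) * r + ρ * ((N : ℝ) + 1 - E)) / (N + 2) ≤ r := by
    rw [div_le_iff₀ (by positivity)]
    nlinarith
  unfold kk
  rw [max_eq_left h1, min_eq_right (by nlinarith)]

/-- the twist map of the star is a limit of homeomorphisms which are the identity outside the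
unit disc -/
theorem spiral (hd : 0 < d) (K : ℕ) (D : ℕ → ℕ → ℝ) (ρ r₁ : ℝ) (hρ : 0 < ρ) (hρ1 : ρ ≤ r₁)
    (hr₁ : r₁ < 1) (hD0 : ∀ E m, 0 ≤ D E m) (hD1 : ∀ E m, D E m ≤ r₁)
    (hDa : ∀ E m, K + 1 ≤ E → E < K + d → m < E → D (E + 1) m ≤ D E m)
    (hDb : ∀ m, d ≤ m → m < K + d → D (K + 1) (m - d) ≤ D (K + d) m) (ε : ℝ) (hε : 0 < ε) :
    ∃ h : ℂ ≃ₜ ℂ, (∀ z, 1 ≤ ‖z‖ → h z = z) ∧
      (∀ E : ℕ, K + 1 ≤ E → E ≤ K + d → ∀ s : ℝ, ρ ≤ s → h (pol d s E) = pol d s E) ∧
      (∀ E : ℕ, K + 1 ≤ E → E ≤ K + d → ∀ u : ℝ, E ≤ u → u ≤ E + 1 →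
        dist (h (pol d (ρ * u / (E + 1)) E)) (pol d (ρ * (u - E)) E) ≤ ε) ∧
      ∀ E m : ℕ, K + 1 ≤ E → E ≤ K + d → m < E → ∀ u : ℝ, m ≤ u → u ≤ m + 1 →
        dist (h (pol d (ρ * u / (E + 1)) E))
          (pol d (D E m * max 0 (1 - |2 * (u - m) - 1|)) m) ≤ ε := by
  obtain ⟨N, hN⟩ : ∃ N, N = K + d := ⟨_, rfl⟩
  have hdN : d ≤ N := by omega
  have hdR : (0 : ℝ) < d := by exact_mod_cast hd
  -- the small number
  obtain ⟨e, he, he1, heε⟩ : ∃ e : ℝ, 0 < e ∧ e ≤ 1 / 4 ∧ 20 * e ≤ ε :=
    ⟨min (ε / 20) (1 / 4), lt_min (by linarith) (by norm_num), min_le_right _ _, by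
      linarith [min_le_left (ε / 20) (1 / 4)]⟩
  have he1' : e ≤ 1 := by linarith
  obtain ⟨C, hC2, hCe⟩ : ∃ C : ℝ, 2 ≤ C ∧ ((N : ℝ) + 1) / C ≤ e / 4 := by
    refine ⟨max 2 (((N : ℝ) + 1) / (e / 4)), le_max_left _ _, ?_⟩
    have h1 : 0 < max 2 (((N : ℝ) + 1) / (e / 4)) := lt_max_of_lt_left two_pos
    rw [div_le_iff₀ h1]
    have h2 := le_max_right 2 (((N : ℝ) + 1) / (e / 4))
    have h3 : ((N : ℝ) + 1) = e / 4 * (((N : ℝ) + 1) / (e / 4)) := by field_simp
    calc ((N : ℝ) + 1) = e / 4 * (((N : ℝ) + 1) / (e / 4)) := h3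
      _ ≤ _ := mul_le_mul_of_nonneg_left h2 (by positivity)
  have hC1 : 1 ≤ C := by linarith
  have hC0 : 0 < C := by linarith
  -- reparametrisation
  obtain ⟨rep, hrep, hrep'⟩ := exists_legs hd (fun j => kk C ρ N (idx d N j))
    (fun j => kk_cont _ _ _ _) (fun j => kk_zero _ _ _ _)
    (fun j => (kk_mono hC0 _ _).strictMonoOn _) 0
    (fun j r hr => by rw [sub_zero]; exact kk_ge hC1 _ _ hr)
  have hrepE : ∀ E : ℕ, K + 1 ≤ E → E ≤ N → ∀ r : ℝ, 0 ≤ r →
      rep (pol d r E) = pol d (kk C ρ N E r) E := by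
    intro E h1 h2 r hr
    rw [hrep E r hr]
    have h3 : idx d N (E % d) = E := by
      have := idx_of (k := E / d) hN h1 h2 (Nat.div_mul_le_self E d)
      have h4 : E - E / d * d = E % d := by
        have := Nat.mod_add_div E d
        rw [Nat.mul_comm] at this
        omega
      rwa [h4] at this
    simp only [h3]
  -- the twist
  set ν : ℝ → ℝ := fun t => (N : ℝ) + 1 - (N + 2) * t / ρ with hν
  have hνc : Continuous ν := by
    rw [hν]
    fun_prop
  obtain ⟨tw, htw⟩ := exists_twist (d := d) (ω := fun t => -max (ν t) 0)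
    ((hνc.max continuous_const).neg)
  have hνρ : ∀ t, ρ ≤ t → ν t ≤ -1 := by
    intro t ht
    have h1 : (N : ℝ) + 2 ≤ (N + 2) * t / ρ := by
      rw [le_div_iff₀ hρ]
      exact mul_le_mul_of_nonneg_left ht (by positivity)
    simp only [hν]
    linarith
  -- the radial map
  set g : ℝ → ℝ := fun t => max 0 (min t ((N + 2) * t - ρ * (N + 1))) with hg
  have hgc : Continuous g := by
    rw [hg]
    fun_prop
  have hgm : Monotone g := by
    intro s t h
    refine max_le_max le_rfl (min_le_min h ?_)
    have : ((N : ℝ) + 2) * s ≤ (N + 2) * t := mul_le_mul_of_nonneg_left h (by positivity)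
    linarith
  have hgρ : ∀ t, ρ ≤ t → g t = t := by
    intro t ht
    have h1 : t ≤ (N + 2) * t - ρ * (N + 1) := by nlinarith
    simp only [hg]
    rw [min_eq_left h1, max_eq_right (hρ.le.trans ht)]
  have hgge : ∀ t, 0 ≤ t → t - ρ ≤ g t := by
    intro t ht
    rcases le_total ρ t with h | h
    · rw [hgρ t h]
      linarith
    · exact le_trans (by linarith) (le_max_left _ _)
  have hgle : ∀ t, 0 ≤ t → g t ≤ t := fun t ht => max_le ht (min_le_left _ _)
  have hg0 : ∀ t, 0 ≤ g t := fun t => le_max_left _ _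
  have hanti : ∀ j, j < d → ∀ i, j + 1 ≤ i → i < j + 1 + (N - j) →
      cc d N D j (i + 1) ≤ cc d N D j i := by
    intro j hj i h1 h2
    exact cc_anti hd hN hD0 hDa hDb h1 (by omega)
  have hQle : ∀ j, j < d → ∀ y, Qf (cc d N D j) (j + 1) (N - j) y ≤ r₁ := by
    intro j hj y
    refine (Qf_le (hanti j hj) y).trans ?_
    have h1 : cc d N D j (j + 1 + (N - j)) = 0 := by
      unfold cc
      rw [if_neg (by omega)]
    have h2 : cc d N D j (j + 1) ≤ r₁ := by
      unfold cc
      split_ifs
      · exact hD1 _ _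
      · linarith
    linarith
  have hr1 : 0 < r₁ := by linarith
  have hspnn : ∀ a v : ℝ, 0 ≤ v → v ≤ d → 0 ≤ sp d N D a v := by
    intro a v h0 h1
    obtain ⟨j, hj, h2, h3⟩ := exists_sector hd h0 h1
    rw [sp_eq D a hj h2 h3]
    exact mul_nonneg (tent_nonneg _) (Qf_nonneg (hanti j hj) _)
  have hsple : ∀ a v : ℝ, 0 ≤ v → v ≤ d → sp d N D a v ≤ r₁ := by
    intro a v h0 h1
    obtain ⟨j, hj, h2, h3⟩ := exists_sector hd h0 h1
    rw [sp_eq D a hj h2 h3]
    have h4 := hQle j hj (a + v)
    have h5 := Qf_nonneg (hanti j hj) (a + v)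
    have h6 := tent_le_one (v - j)
    have h7 := tent_nonneg (v - j)
    nlinarith
  have hspanti : ∀ a b v : ℝ, 0 ≤ v → v ≤ d → a ≤ b → sp d N D b v ≤ sp d N D a v := by
    intro a b v h0 h1 hab
    obtain ⟨j, hj, h2, h3⟩ := exists_sector hd h0 h1
    rw [sp_eq D a hj h2 h3, sp_eq D b hj h2 h3]
    exact mul_le_mul_of_nonneg_left (Qf_anti (hanti j hj) (by linarith)) (tent_nonneg _)
  set q : ℝ → ℝ → ℝ := fun t v => (1 - e) * max (sp d N D (max (ν t) 0) v) (g t) + e * t with hq
  have hqc : Continuous fun p : ℝ × ℝ => q p.1 p.2 := by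
    have h1 : Continuous fun p : ℝ × ℝ => sp d N D (max (ν p.1) 0) p.2 :=
      (sp_cont d N D).comp (((hνc.comp continuous_fst).max continuous_const).prodMk continuous_snd)
    simp only [hq]
    exact (continuous_const.mul (h1.max (hgc.comp continuous_fst))).add
      (continuous_const.mul continuous_fst)
  have hqleg : ∀ (m : ℕ) (t : ℝ), q t m = (1 - e) * g t + e * t := by
    intro m t
    simp only [hq]
    rw [sp_int, max_eq_right (hg0 t)]
  obtain ⟨rad, hrad⟩ := exists_radial hd hqc (by
      intro v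
      have h1 : ν 0 = N + 1 := by simp [hν]
      have h2 : sp d N D (max (ν 0) 0) v = 0 := by
        rw [h1, max_eq_left (by positivity)]
        rcases le_total v 0 with h | h
        · unfold sp
          refine Finset.sum_eq_zero fun j _ => ?_
          have : (0 : ℝ) ≤ j := by positivity
          rw [tent_left (by linarith), zero_mul]
        · exact sp_zero hdN D (by linarith)
      have h3 : g 0 = 0 := le_antisymm (hgle 0 le_rfl) (hg0 0)
      simp only [hq]
      rw [h2, h3]
      simp)
    (by
      intro r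
      have h1 := hqleg 0 r
      have h2 := hqleg d r
      rw [Nat.cast_zero] at h1
      rw [h1, h2])
    (by
      intro v h0 h1 s hs t ht hst
      simp only [hq]
      have h2 : max (sp d N D (max (ν s) 0) v) (g s) ≤ max (sp d N D (max (ν t) 0) v) (g t) := by
        refine max_le_max (hspanti _ _ v h0 h1 (max_le_max ?_ le_rfl)) (hgm hst.le)
        simp only [hν]
        have : ((N : ℝ) + 2) * s / ρ ≤ (N + 2) * t / ρ :=
          div_le_div_of_nonneg_right (mul_le_mul_of_nonneg_left hst.le (by positivity)) hρ.le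
        linarith
      have h3 : e * s < e * t := mul_lt_mul_of_pos_left hst he
      have h4 : 0 ≤ 1 - e := by linarith
      have := mul_le_mul_of_nonneg_left h2 h4
      linarith)
    ρ
    (by
      intro r v hr h0 h1
      simp only [hq]
      have h2 : g r ≤ max (sp d N D (max (ν r) 0) v) (g r) := le_max_right _ _
      have h3 := hgge r hr
      have h4 : 0 ≤ 1 - e := by linarith
      have := mul_le_mul_of_nonneg_left (h3.trans h2) h4
      nlinarith)
  -- the squeeze
  set lam : ℝ → ℝ := fun r => cl ((r - r₁) / (1 - r₁)) with hlam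
  have hlamc : Continuous lam := by
    simp only [hlam]
    exact cl_cont.comp (by fun_prop)
  have hlam0 : ∀ r, r ≤ r₁ → lam r = 0 := by
    intro r hr
    exact cl_zero (div_nonpos_of_nonpos_of_nonneg (by linarith) (by linarith))
  have hlam1 : ∀ r, 1 ≤ r → lam r = 1 := by
    intro r hr
    exact cl_one (by rw [le_div_iff₀ (by linarith)]; linarith)
  set G : ℝ → ℝ → ℝ := fun r v => (1 - lam r) * sg d e v + lam r * v with hG
  have hGint : ∀ (m : ℕ) (r : ℝ), m ≤ d → G r m = m := by
    intro m r hm
    simp only [hG]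
    rw [sg_int he he1' hd hm]
    ring
  obtain ⟨sq, hsq⟩ := exists_angular hd (g := G) (by
      simp only [hG]
      exact ((continuous_const.sub (hlamc.comp continuous_fst)).mul
        ((sg_cont d e).comp continuous_snd)).add ((hlamc.comp continuous_fst).mul continuous_snd))
    (by
      intro r
      have := hGint 0 r (by omega)
      simpa using this)
    (fun r => hGint d r le_rfl)
    (by
      intro r _ v hv w hw h
      simp only [hG]
      have h1 := sg_mono he hv hw h
      have h2 : 0 ≤ lam r := cl_nonneg _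
      have h3 : lam r ≤ 1 := cl_le_one _
      rcases eq_or_lt_of_le h2 with h4 | h4
      · rw [← h4]
        linarith
      · have h5 : (1 - lam r) * sg d e v ≤ (1 - lam r) * sg d e w :=
          mul_le_mul_of_nonneg_left h1.le (by linarith)
        have h6 : lam r * v < lam r * w := mul_lt_mul_of_pos_left h h4
        linarith)
  have hsqleg : ∀ (m : ℕ) (r : ℝ), 0 ≤ r → sq (pol d r m) = pol d r m := by
    intro m r hr
    have hm : m % d < d := Nat.mod_lt m hd
    rw [← pol_mod hd r m, hsq r _ hr (by positivity) (by exact_mod_cast hm.le), hGint _ _ hm.le]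
  have hradleg : ∀ (m : ℕ) (r : ℝ), 0 ≤ r →
      rad (pol d r m) = pol d ((1 - e) * g r + e * r) m := by
    intro m r hr
    have hm : m % d < d := Nat.mod_lt m hd
    rw [← pol_mod hd r m, hrad r _ hr (by positivity) (by exact_mod_cast hm.le), hqleg,
      pol_mod hd _ m]
  refine ⟨((rep.trans tw).trans rad).trans sq, ?_, ?_, ?_, ?_⟩
  · intro z hz
    obtain ⟨r, v, hr, h0, h1, rfl⟩ := exists_pol hd z
    rw [norm_pol, abs_of_nonneg hr] at hz
    have hρr : ρ ≤ r := by linarith
    have e1 : rep (pol d r v) = pol d r v := by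
      refine hrep' ρ hρ.le (fun j r hr => kk_eq hC1 hρ (idx_le _ _) hr) _ ?_
      rw [norm_pol, abs_of_nonneg hr]
      exact hρr
    have e2 : tw (pol d r v) = pol d r v := by
      rw [htw r v hr, max_eq_right (by linarith [hνρ r hρr]), neg_zero, add_zero]
    have e3 : q r v = r := by
      simp only [hq]
      rw [hgρ r hρr, max_eq_right ((hsple _ v h0 h1.le).trans (by linarith))]
      ring
    have e4 : G r v = v := by
      simp only [hG]
      rw [hlam1 r hz]
      ring
    simp only [Homeomorph.trans_apply]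
    rw [e1, e2, hrad r v hr h0 h1.le, e3, hsq r v hr h0 h1.le, e4]
  · intro E hE hE' s hs
    have hs0 : 0 ≤ s := hρ.le.trans hs
    simp only [Homeomorph.trans_apply]
    rw [hrepE E hE (by omega) s hs0, kk_eq hC1 hρ (by omega) hs, htw s _ hs0,
      max_eq_right (by linarith [hνρ s hs]), neg_zero, add_zero, hradleg E s hs0, hgρ s hs]
    have : (1 - e) * s + e * s = s := by ring
    rw [this, hsqleg E s hs0]
  · intro E hE hE' u hu hu'
    have hE1 : (E : ℝ) ≤ N := by exact_mod_cast (by omega : E ≤ N)
    have hE0 : (1 : ℝ) ≤ E := by exact_mod_cast (by omega : 1 ≤ E)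
    set s := ρ * u / (E + 1) with hs
    have hu0 : 0 ≤ u := by linarith
    have hs0 : 0 ≤ s := by positivity
    have hEs : (E + 1) * s = ρ * u := by
      rw [hs]
      field_simp
    set T := ((E + 1) * s + ρ * ((N : ℝ) + 1 - E)) / (N + 2) with hT
    have hT' : (N + 2) * T = ρ * (u + N + 1 - E) := by
      rw [hT, hEs]
      field_simp
      ring
    have hsρ : s ≤ ρ := by
      rw [hs, div_le_iff₀ (by positivity)]
      exact mul_le_mul_of_nonneg_left hu' hρ.le
    have hsT : s ≤ T := by
      rw [hT, le_div_iff₀ (by positivity)]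
      nlinarith
    have hTρ : T ≤ ρ := by
      have : (N + 2) * T ≤ (N + 2) * ρ := by
        rw [hT']
        nlinarith
      exact le_of_mul_le_mul_left this (by positivity)
    have hk : kk C ρ N E s = T := by
      unfold kk
      rw [← hT, max_eq_right hsT, min_eq_right]
      have h1 : ρ ≤ 2 * s := by
        rw [hs, ← mul_div_assoc, le_div_iff₀ (by positivity)]
        nlinarith
      nlinarith
    have hT0 : 0 ≤ T := hs0.trans hsT
    have hνT : ν T = E - u := by
      simp only [hν]
      rw [hT']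
      field_simp
      ring
    have hgT : g T = ρ * (u - E) := by
      simp only [hg]
      rw [hT']
      have h1 : ρ * (u + N + 1 - E) - ρ * (N + 1) = ρ * (u - E) := by ring
      rw [h1]
      have h2 : ρ * (u - E) ≤ T := by
        have : (N + 2) * (ρ * (u - E)) ≤ (N + 2) * T := by
          rw [hT']
          have h3 : 0 ≤ ρ * (((N : ℝ) + 1) * (1 - (u - E))) :=
            mul_nonneg hρ.le (mul_nonneg (by positivity) (by linarith))
          nlinarith
        exact le_of_mul_le_mul_left this (by positivity)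
      rw [min_eq_right h2, max_eq_right (mul_nonneg hρ.le (by linarith))]
    simp only [Homeomorph.trans_apply]
    have hnn : 0 ≤ (1 - e) * g T + e * T :=
      add_nonneg (mul_nonneg (by linarith) (hg0 T)) (by positivity)
    rw [hrepE E hE (by omega) s hs0, hk, htw T _ hT0, hνT, max_eq_right (by linarith), neg_zero,
      add_zero, hradleg E T hT0, hsqleg E _ hnn]
    refine (dist_pol_le _ _ _ _).trans ?_
    rw [sub_self, abs_zero, mul_zero, zero_div, mul_zero, add_zero, ← hgT]
    have h3 : (1 - e) * g T + e * T - g T = e * (T - g T) := by ring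
    rw [h3, abs_of_nonneg (mul_nonneg he.le (by linarith [hgle T hT0]))]
    have : T - g T ≤ 1 := by linarith [hg0 T]
    nlinarith
  · intro E m hE hE' hm u hu hu'
    have hE1 : (E : ℝ) ≤ N := by exact_mod_cast (by omega : E ≤ N)
    have hmE : (m : ℝ) + 1 ≤ E := by exact_mod_cast hm
    have hm0 : (0 : ℝ) ≤ m := by positivity
    set s := ρ * u / (E + 1) with hs
    have hu0 : 0 ≤ u := by linarith
    have hE0 : (0 : ℝ) ≤ E := by positivity
    have hs0 : 0 ≤ s := by positivity
    have hEs : (E + 1) * s = ρ * u := by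
      rw [hs]
      field_simp
    set T := ((E + 1) * s + ρ * ((N : ℝ) + 1 - E)) / (N + 2) with hT
    have hT' : (N + 2) * T = ρ * (u + N + 1 - E) := by
      rw [hT, hEs]
      field_simp
      ring
    have hsρ : s ≤ ρ := by
      rw [hs, div_le_iff₀ (by positivity)]
      exact mul_le_mul_of_nonneg_left (by linarith) hρ.le
    have hsT : s ≤ T := by
      rw [hT, le_div_iff₀ (by positivity)]
      nlinarith
    have hTρ : T ≤ ρ := by
      have : (N + 2) * T ≤ (N + 2) * ρ := by
        rw [hT']
        nlinarith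
      exact le_of_mul_le_mul_left this (by positivity)
    have hT0 : 0 ≤ T := hs0.trans hsT
    have hνT : ν T = E - u := by
      simp only [hν]
      rw [hT']
      field_simp
      ring
    have hgT : g T = 0 := by
      simp only [hg]
      rw [hT']
      refine max_eq_left ((min_le_right _ _).trans ?_)
      nlinarith
    change dist _ (pol d (D E m * tent (u - m)) m) ≤ ε
    simp only [Homeomorph.trans_apply]
    rw [hrepE E hE (by omega) s hs0]
    have hkk : kk C ρ N E s = min (C * s) T := by
      unfold kk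
      rw [← hT, max_eq_right hsT]
    rcases le_total T (C * s) with hcase | hcase
    · -- the regular case
      rw [hkk, min_eq_right hcase, htw T _ hT0, hνT, max_eq_left (by linarith)]
      have h1 : (E : ℝ) + -(E - u) = u := by ring
      rw [h1]
      obtain ⟨j, k, hj, hjk⟩ : ∃ j k : ℕ, j < d ∧ m = j + k * d :=
        ⟨m % d, m / d, Nat.mod_lt m hd, by
          rw [Nat.mul_comm]
          exact (Nat.mod_add_div m d).symm⟩
      have hjkR : (m : ℝ) = j + k * d := by exact_mod_cast hjk
      obtain ⟨v, hv⟩ : ∃ v : ℝ, v = u - k * d := ⟨_, rfl⟩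
      have hvj : (j : ℝ) ≤ v := by linarith
      have hvj' : v ≤ j + 1 := by linarith
      have hjd : (j : ℝ) + 1 ≤ d := by exact_mod_cast hj
      have hj0 : (0 : ℝ) ≤ j := by positivity
      have hpu : pol d T u = pol d T v := by
        rw [← pol_add_nat hd T v k, hv]
        congr 1
        ring
      have hpm : pol d (D E m * tent (u - m)) m = pol d (D E m * tent (u - m)) j := by
        rw [← pol_add_nat hd _ (j : ℝ) k]
        congr 1
      rw [hpu, hpm, hrad T v hT0 (by linarith) (by linarith)]
      -- value of the spike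
      have hval : sp d N D (max (ν T) 0) v = tent (u - m) * D E m := by
        rw [hνT, max_eq_left (by linarith), sp_eq D _ hj hvj hvj']
        have h2 : v - j = u - m := by rw [hv, hjkR]; ring
        rw [h2]
        congr 1
        have hkE : k * d ≤ E := by omega
        have hEk : E - k * d = (j + 1) + (E - k * d - (j + 1)) := by omega
        have h3 : (E : ℝ) - u + v = (((j + 1) + (E - k * d - (j + 1)) : ℕ) : ℝ) := by
          rw [← hEk, Nat.cast_sub hkE, hv]
          push_cast
          ring
        rw [h3, Qf_int _ _ _ _ (by omega), ← hEk]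
        have h4 : cc d N D j (j + 1 + (N - j)) = 0 := by
          unfold cc
          rw [if_neg (by omega)]
        rw [h4, sub_zero]
        unfold cc
        rw [if_pos (by omega), idx_of hN hE (by omega) hkE]
        congr 1
        omega
      set w := D E m * tent (u - m) with hw
      have hw0 : 0 ≤ w := mul_nonneg (hD0 _ _) (tent_nonneg _)
      have hwr : w ≤ r₁ := by
        have := tent_le_one (u - m)
        have := tent_nonneg (u - m)
        have := hD0 E m
        have := hD1 E m
        nlinarith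
      have hqv : q T v = (1 - e) * w + e * T := by
        simp only [hq]
        rw [hval, hgT, mul_comm (tent (u - m)), ← hw, max_eq_left hw0]
      have hq0 : 0 ≤ q T v := by
        rw [hqv]
        exact add_nonneg (mul_nonneg (by linarith) hw0) (by positivity)
      have hqr : q T v ≤ r₁ := by
        rw [hqv]
        nlinarith
      rw [hsq (q T v) v hq0 (by linarith) (by linarith)]
      have hGv : G (q T v) v = j + S e (v - j) := by
        simp only [hG]
        rw [hlam0 _ hqr]
        have h2 := sg_eq (d := d) he he1' hj (f := v - j) (by linarith) (by linarith)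
        rw [show (j : ℝ) + (v - j) = v by ring] at h2
        rw [h2]
        ring
      rw [hGv]
      refine (dist_pol_le _ _ _ _).trans ?_
      have h5 : |q T v - w| ≤ e := by
        rw [hqv]
        have : (1 - e) * w + e * T - w = e * (T - w) := by ring
        rw [this, abs_mul, abs_of_pos he]
        have : |T - w| ≤ 1 := by
          rw [abs_le]
          constructor <;> linarith
        nlinarith
      have h6 : |w| * (2 * Real.pi * |(j : ℝ) + S e (v - j) - j| / d) ≤ 16 * e := by
        have hSnn : 0 ≤ S e (v - j) := le_max_of_le_left (mul_nonneg he.le (by linarith))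
        rw [abs_of_nonneg hw0, show (j : ℝ) + S e (v - j) - j = S e (v - j) by ring,
          abs_of_nonneg hSnn]
        have h7 := tent_S he he1' (f := v - j) (by linarith) (by linarith)
        have h8 : v - j = u - m := by rw [hv, hjkR]; ring
        have h9 : w ≤ tent (v - j) := by
          rw [hw, h8]
          have := tent_nonneg (u - m)
          have := hD1 E m
          nlinarith
        have h10 : w * S e (v - j) ≤ 2 * e :=
          (mul_le_mul_of_nonneg_right h9 hSnn).trans h7
        have h11 : (1 : ℝ) ≤ d := by exact_mod_cast hd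
        have h12 : 2 * Real.pi * S e (v - j) / d ≤ 2 * Real.pi * S e (v - j) :=
          div_le_self (by positivity) h11
        have h13 : w * (2 * Real.pi * S e (v - j) / d) ≤ w * (2 * Real.pi * S e (v - j)) :=
          mul_le_mul_of_nonneg_left h12 hw0
        have h14 : w * (2 * Real.pi * S e (v - j)) = 2 * Real.pi * (w * S e (v - j)) := by ring
        have hpi := Real.pi_le_four
        have hpi0 := Real.pi_pos
        have h15 : 0 ≤ w * S e (v - j) := mul_nonneg hw0 hSnn
        calc w * (2 * Real.pi * S e (v - j) / d) ≤ 2 * Real.pi * (w * S e (v - j)) :=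
              h13.trans h14.le
          _ ≤ 2 * 4 * (2 * e) := by
              apply mul_le_mul _ h10 h15 (by norm_num)
              linarith
          _ = 16 * e := by ring
      linarith
    · -- near the centre
      have hus : u ≤ e / 4 := by
        have h1 : C * s ≤ ρ := hcase.trans hTρ
        have h2 : C * u ≤ E + 1 := by
          have h3 : C * (ρ * u) ≤ (E + 1) * ρ := by
            rw [← hEs]
            calc C * ((E + 1) * s) = (E + 1) * (C * s) := by ring
              _ ≤ (E + 1) * ρ := mul_le_mul_of_nonneg_left h1 (by positivity)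
          have h4 : ρ * (C * u) ≤ ρ * (E + 1) := by linarith
          exact le_of_mul_le_mul_left h4 hρ
        have h3 : u ≤ ((N : ℝ) + 1) / C := by
          rw [le_div_iff₀ hC0]
          linarith
        exact h3.trans hCe
      rw [hkk, min_eq_left hcase]
      set t := C * s with ht
      have ht0 : 0 ≤ t := mul_nonneg hC0.le hs0
      have htν : E - u ≤ ν t := by
        rw [← hνT]
        simp only [hν]
        have : ((N : ℝ) + 2) * t / ρ ≤ (N + 2) * T / ρ :=
          div_le_div_of_nonneg_right (mul_le_mul_of_nonneg_left hcase (by positivity)) hρ.le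
        linarith
      rw [htw t _ ht0, max_eq_left (by linarith)]
      obtain ⟨v, k, hv0, hv1, hvk⟩ := exists_red hd ((E : ℝ) + -ν t)
      have hsp : sp d N D (max (ν t) 0) v ≤ e / 2 := by
        rw [max_eq_left (by linarith : (0 : ℝ) ≤ ν t)]
        have hsum : ν t + v = E - k * d := by linarith
        rcases le_or_gt k (-1) with hk | hk
        · have h1 : (k : ℝ) ≤ -1 := by exact_mod_cast hk
          rw [sp_zero hdN D]
          · linarith
          · rw [hsum]
            have h2 : (d : ℝ) ≤ -(k * d) := by nlinarith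
            have h3 : (N : ℝ) + 1 ≤ E + d := by exact_mod_cast (by omega : N + 1 ≤ E + d)
            linarith
        · have hk0 : (0 : ℝ) ≤ k := by exact_mod_cast (by omega : 0 ≤ k)
          have h1 : v ≤ e / 4 := by
            have : (0 : ℝ) ≤ k * d := by positivity
            linarith
          rw [sp_eq D _ hd (by simpa using hv0) (by push_cast; linarith)]
          have h2 := tent_le_left hv0
          have h3 := hQle 0 hd (ν t + v)
          have h4 := Qf_nonneg (hanti 0 hd) (ν t + v)
          have h5 := tent_nonneg v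
          push_cast at *
          rw [sub_zero]
          nlinarith
      have hspn := hspnn (max (ν t) 0) v hv0 hv1.le
      have hgt : g t = 0 := by
        refine le_antisymm ?_ (hg0 t)
        rw [← hgT]
        exact hgm hcase
      have hqv : q t v ≤ 2 * e := by
        simp only [hq]
        rw [hgt, max_eq_left hspn]
        have : t ≤ 1 := by linarith
        nlinarith
      have hq0 : 0 ≤ q t v := by
        simp only [hq]
        rw [hgt, max_eq_left hspn]
        exact add_nonneg (mul_nonneg (by linarith) hspn) (by positivity)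
      rw [hvk, pol_add_mul hd, hrad t v ht0 hv0 hv1.le, hsq _ v hq0 hv0 hv1.le]
      have hd1 : ∀ (a b c : ℝ) (m' : ℕ), dist (pol d a b) (pol d c m') ≤ |a| + |c| := by
        intro a b c m'
        rw [dist_eq_norm]
        refine (norm_sub_le _ _).trans ?_
        rw [norm_pol, norm_pol]
      refine (hd1 _ _ _ _).trans ?_
      have hmz : m = 0 := by
        by_contra h
        have : (1 : ℝ) ≤ m := by exact_mod_cast Nat.one_le_iff_ne_zero.2 h
        linarith
      have h7 : D E m * tent (u - m) ≤ e := by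
        have h8 : tent (u - m) ≤ 2 * (u - m) := tent_le_left (by linarith)
        have h9 := tent_nonneg (u - m)
        have h10 := hD1 E m
        have h11 := hD0 E m
        nlinarith
      have h8 : 0 ≤ D E m * tent (u - m) := mul_nonneg (hD0 _ _) (tent_nonneg _)
      rw [abs_of_nonneg hq0, abs_of_nonneg h8]
      linarith

end Pool.Agent.PL
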