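import Pool.Agent.DB.G.Chart
import Pool.Agent.DB.G.Spiral

/-!
# DB part G: the twist map `f x` is planar
-/

set_option autoImplicit false

namespace Pool.Agent.DB

open Set Pool.Agent.PL

private theorem hat_lip (a b : ℝ) : |max 0 (1 - |a|) - max 0 (1 - |b|)| ≤ |a - b| := by
  refine (abs_max_sub_max_le_max _ _ _ _).trans ?_
  rw [sub_self, abs_zero]
  refine max_le (abs_nonneg _) ?_
  have h1 : 1 - |a| - (1 - |b|) = |b| - |a| := by ring
  rw [h1, abs_sub_comm a b]
  exact abs_abs_sub_abs_le b a

private theorem lin_pl_lip {V : Type} [Fintype V] [DecidableEq V] (φ : V → ℂ) (w : ℕ → V) (N : ℕ)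
    (h h' : ℝ) : dist (lin φ (pl w N h)) (lin φ (pl w N h')) ≤
      (N + 1) * (∑ v, ‖φ v‖) * |h - h'| := by
  have h1 : ∀ h : ℝ, lin φ (pl w N h) =
      ∑ j ∈ Finset.range (N + 1), ((max 0 (1 - |h - j|) : ℝ) : ℂ) * φ (w j) := by
    intro h
    unfold pl
    rw [lin_sum]
    refine Finset.sum_congr rfl fun j _ => ?_
    rw [lin_smul, lin_ev]
  rw [h1, h1, dist_eq_norm, ← Finset.sum_sub_distrib]
  refine (norm_sum_le _ _).trans ?_
  have h2 : ∀ j ∈ Finset.range (N + 1),
      ‖((max 0 (1 - |h - j|) : ℝ) : ℂ) * φ (w j) - ((max 0 (1 - |h' - j|) : ℝ) : ℂ) * φ (w j)‖ ≤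
        (∑ v, ‖φ v‖) * |h - h'| := by
    intro j _
    rw [← sub_mul, ← Complex.ofReal_sub, norm_mul, Complex.norm_real, Real.norm_eq_abs, mul_comm]
    have h3 : |max 0 (1 - |h - j|) - max 0 (1 - |h' - j|)| ≤ |h - h'| := by
      refine (hat_lip _ _).trans (le_of_eq ?_)
      congr 1
      ring
    have h4 : ‖φ (w j)‖ ≤ ∑ v, ‖φ v‖ :=
      Finset.single_le_sum (f := fun v => ‖φ v‖) (fun v _ => norm_nonneg _) (Finset.mem_univ (w j))
    exact mul_le_mul h4 h3 (abs_nonneg _) (Finset.sum_nonneg fun v _ => norm_nonneg _)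
  refine (Finset.sum_le_sum h2).trans (le_of_eq ?_)
  rw [Finset.sum_const, Finset.card_range, nsmul_eq_mul]
  push_cast
  ring

private theorem L_ge (M : Model) {x : M.V} (hx : x ∈ M.B) : 39 ≤ M.L := by
  have h1 := M.three_le x hx
  have h2 := M.long x hx
  have h3 : 9 ≤ M.d x ^ 2 := by nlinarith
  have h4 : 13 * 3 ≤ (M.d x ^ 2 + M.d x + 1) * M.d x := Nat.mul_le_mul (by omega) h1
  omega

private theorem code_le (M : Model) {x : M.V} (hx : x ∈ M.B) {E m : ℕ} (hE : M.K x + 1 ≤ E)
    (hE' : E ≤ M.K x + M.d x) (hm : m < E) : M.code x E m ≤ M.L := by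
  unfold Model.code
  split_ifs with h
  · exact le_rfl
  · have h1 := M.three_le x hx
    have h2 := M.long x hx
    have h3 : M.K x = M.d x ^ 2 := rfl
    have h4 : m + 2 ≤ M.d x ^ 2 + M.d x := by omega
    have h5 : m * M.d x + 2 * M.d x ≤ (M.d x ^ 2 + M.d x) * M.d x := by
      rw [← add_mul]
      exact Nat.mul_le_mul_right _ h4
    have h6 : (M.d x ^ 2 + M.d x + 1) * M.d x = (M.d x ^ 2 + M.d x) * M.d x + M.d x := by ring
    omega

private theorem code_a (M : Model) {x : M.V} {E m : ℕ} (hE' : E < M.K x + M.d x) (hm : m < E) :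
    min (M.code x (E + 1) m) M.L ≤ min (M.code x E m) M.L := by
  unfold Model.code
  rw [if_neg (by omega : ¬ m + 1 = E + 1)]
  split_ifs with h
  · rw [min_self]
    exact min_le_right _ _
  · exact min_le_min (by omega) le_rfl

private theorem code_b (M : Model) {x : M.V} (hx : x ∈ M.B) {m : ℕ} (hm : M.d x ≤ m)
    (hm' : m < M.K x + M.d x) :
    min (M.code x (M.K x + 1) (m - M.d x)) M.L ≤ min (M.code x (M.K x + M.d x) m) M.L := by
  unfold Model.code
  rw [if_neg (by omega : ¬ m - M.d x + 1 = M.K x + 1)]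
  split_ifs with h
  · rw [min_self]
    exact min_le_right _ _
  · refine min_le_min ?_ le_rfl
    obtain ⟨t, rfl⟩ : ∃ t, m = M.d x + t := ⟨m - M.d x, by omega⟩
    have h1 := M.three_le x hx
    have h2 : M.d x + t - M.d x = t := by omega
    rw [h2, add_mul]
    have h3 : M.d x * 3 ≤ M.d x * M.d x := Nat.mul_le_mul_left _ h1
    omega

/-- the twist map is a uniform limit of homeomorphisms of the plane -/
theorem f_planar (M : Model) (φ : M.V → ℂ) (hφ : Good' M φ) (x : M.V) (hx : x ∈ M.B) (δ : ℝ)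
    (hδ : 0 < δ) :
    ∃ h : ℂ ≃ₜ ℂ, ∀ p ∈ real M.G, dist (h (lin φ p)) (lin φ (M.f x p)) < δ := by
  have hd3 := M.three_le x hx
  have hd : 0 < M.d x := by omega
  have hL := L_ge M hx
  have hLR : (39 : ℝ) ≤ M.L := by exact_mod_cast hL
  have hL0 : (0 : ℝ) < M.L := by linarith
  set Bd : ℝ := ∑ v, ‖φ v‖ with hBd
  have hBd0 : 0 ≤ Bd := Finset.sum_nonneg fun v _ => norm_nonneg _
  -- the small number
  obtain ⟨t, ht0, ht1, htδ⟩ : ∃ t : ℝ, 0 < t ∧ t ≤ 1 / 2 ∧
      ((M.L : ℝ) + 1) * Bd * (t * M.L) < δ / 2 := by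
    set A := ((M.L : ℝ) + 1) * Bd * M.L with hA
    have hA0 : 0 ≤ A := by positivity
    refine ⟨min (1 / 2) (δ / 2 / (A + 1)), lt_min (by norm_num) (by positivity),
      min_le_left _ _, ?_⟩
    have h1 : min (1 / 2) (δ / 2 / (A + 1)) ≤ δ / 2 / (A + 1) := min_le_right _ _
    have h2 : 0 ≤ min (1 / 2) (δ / 2 / (A + 1)) := by positivity
    calc ((M.L : ℝ) + 1) * Bd * (min (1 / 2) (δ / 2 / (A + 1)) * M.L)
        = A * min (1 / 2) (δ / 2 / (A + 1)) := by rw [hA]; ring
      _ ≤ A * (δ / 2 / (A + 1)) := mul_le_mul_of_nonneg_left h1 hA0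
      _ = δ / 2 * (A / (A + 1)) := by ring
      _ < δ / 2 * 1 := by
          apply mul_lt_mul_of_pos_left _ (by linarith)
          rw [div_lt_one (by linarith)]
          linarith
      _ = δ / 2 := mul_one _
  obtain ⟨H, hH1, hH2⟩ := chart M φ hφ x hx (1 + t) (by linarith)
  -- modulus of continuity of the inverse chart
  have hK : IsCompact (Metric.closedBall (0 : ℂ) 3) := isCompact_closedBall 0 3
  have hu := hK.uniformContinuousOn_of_continuous H.symm.continuous.continuousOn
  rw [Metric.uniformContinuousOn_iff] at hu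
  obtain ⟨η, hη, hηH⟩ := hu (δ / 2) (by linarith)
  set ε : ℝ := min (η / 2) 1 with hε
  have hε0 : 0 < ε := lt_min (by linarith) one_pos
  have hmod : ∀ a b : ℂ, ‖b‖ ≤ 2 → dist a b ≤ ε → dist (H.symm a) (H.symm b) < δ / 2 := by
    intro a b hb hab
    have h1 : dist a b < η := lt_of_le_of_lt (hab.trans (min_le_left _ _)) (by linarith)
    have h2 : dist a b ≤ 1 := hab.trans (min_le_right _ _)
    refine hηH a ?_ b ?_ h1
    · rw [mem_closedBall_zero_iff]
      have : ‖a‖ ≤ ‖a - b‖ + ‖b‖ := by simpa using norm_add_le (a - b) b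
      rw [← dist_eq_norm] at this
      linarith
    · rw [mem_closedBall_zero_iff]
      linarith
  set ρ : ℝ := (1 + t) / M.L with hρ
  have hρ0 : 0 < ρ := by positivity
  have hρ1 : ρ < 1 := by
    rw [hρ, div_lt_one hL0]
    linarith
  set μ : ℝ := (1 - t) * (1 + t) with hμ
  have hμ0 : 0 < μ := mul_pos (by linarith) (by linarith)
  have hμ1 : μ < 1 := by
    have : 0 < t * t := mul_pos ht0 ht0
    rw [hμ]
    linarith
  set D : ℕ → ℕ → ℝ := fun E m => μ * ((min (M.code x E m) M.L : ℕ) : ℝ) / M.L with hD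
  obtain ⟨h', h1, h2, h3, h4⟩ := spiral hd (M.K x) D ρ (max μ ρ) hρ0 (le_max_right _ _)
    (max_lt hμ1 hρ1)
    (fun E m => by positivity)
    (fun E m => by
      refine le_trans ?_ (le_max_left _ _)
      simp only [hD]
      rw [div_le_iff₀ hL0]
      refine mul_le_mul_of_nonneg_left ?_ hμ0.le
      exact_mod_cast min_le_right _ _)
    (fun E m _ hE hm => by
      simp only [hD]
      refine div_le_div_of_nonneg_right (mul_le_mul_of_nonneg_left ?_ hμ0.le) hL0.le
      exact_mod_cast code_a M hE hm)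
    (fun m hm hm' => by
      simp only [hD]
      refine div_le_div_of_nonneg_right (mul_le_mul_of_nonneg_left ?_ hμ0.le) hL0.le
      exact_mod_cast code_b M hx hm hm')
    ε hε0
  refine ⟨H.trans (h'.trans H.symm), fun p hp => ?_⟩
  simp only [Homeomorph.trans_apply]
  by_cases hpx : p x = 0
  · -- outside the first edges
    have hf : M.f x p = p := by
      unfold Model.f
      rw [if_pos hpx]
    rw [hf]
    have hfix : h' (H (lin φ p)) = H (lin φ p) := by
      by_cases hs : ∃ (m : ℕ) (h : ℝ), 0 ≤ h ∧ h ≤ M.L ∧ p = pl (M.ray x m) M.L h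
      · obtain ⟨m, h, hh0, hh1, rfl⟩ := hs
        have hge : 1 ≤ h := by
          by_contra hlt
          push Not at hlt
          have h5 := pl_eq (M.ray x m) M.L 0 (by omega) h hh0 hlt.le
          rw [Nat.cast_zero, zero_add, zero_add, M.ray_zero x hx m] at h5
          rw [h5] at hpx
          have hne : M.ray x m 1 ≠ x := by
            intro h6
            have h7 := M.ray_adj x hx m 0 (by omega)
            rw [M.ray_zero x hx m, zero_add, h6] at h7
            exact h7.ne rfl
          simp only [Pi.add_apply, Pi.smul_apply, ev, Pi.single_eq_same, smul_eq_mul,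
            Pi.single_eq_of_ne hne.symm] at hpx
          linarith
        rw [hH1 m h hh0 hh1]
        have hper : ∃ E : ℕ, M.K x + 1 ≤ E ∧ E ≤ M.K x + M.d x ∧
            ∀ r, pol (M.d x) r m = pol (M.d x) r E := by
          have hmod := Nat.mod_lt m hd
          have h5 : ∀ r, pol (M.d x) r m = pol (M.d x) r ((m % M.d x : ℕ) : ℝ) := by
            intro r
            have h6 := pol_add_nat hd r ((m % M.d x : ℕ) : ℝ) (m / M.d x)
            rw [← h6]
            congr 1
            have h7 := Nat.mod_add_div m (M.d x)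
            conv_lhs => rw [← h7]
            push_cast
            ring
          have hKd : M.K x = M.d x * M.d x := by
            unfold Model.K
            ring
          rcases Nat.eq_zero_or_pos (m % M.d x) with h6 | h6
          · refine ⟨M.K x + M.d x, by omega, le_rfl, fun r => ?_⟩
            rw [h5, h6]
            have h7 := pol_add_nat hd r 0 (M.d x + 1)
            rw [Nat.cast_zero, ← h7]
            congr 1
            rw [hKd]
            push_cast
            ring
          · refine ⟨M.K x + m % M.d x, by omega, by omega, fun r => ?_⟩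
            rw [h5]
            have h7 := pol_add_nat hd r ((m % M.d x : ℕ) : ℝ) (M.d x)
            rw [← h7]
            congr 1
            rw [hKd]
            push_cast
            ring
        obtain ⟨E, hE, hE', hEp⟩ := hper
        rw [hEp]
        refine h2 E hE hE' _ ?_
        rw [hρ]
        refine div_le_div_of_nonneg_right ?_ hL0.le
        nlinarith
      · exact h1 _ (hH2 p hp hs)
    rw [hfix, Homeomorph.symm_apply_apply, dist_self]
    exact hδ
  · obtain ⟨E, s, hE, hE', hs0, hs1, rfl⟩ := model_cases M x hx p hp hpx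
    have hE0 : 0 < (E : ℝ) + 1 := by positivity
    rw [f_first M x hx E hE hE' s hs0 hs1]
    have h5 := pl_eq (M.ray x E) M.L 0 (by omega) s hs0 hs1.le
    rw [Nat.cast_zero, zero_add, zero_add, M.ray_zero x hx E] at h5
    rw [← h5, hH1 E s hs0 (by linarith)]
    obtain ⟨u, hu⟩ : ∃ u : ℝ, u = (E + 1) * s := ⟨_, rfl⟩
    have hu0 : 0 ≤ u := by rw [hu]; positivity
    have hsu : s = u / (E + 1) := by
      rw [hu]
      field_simp
    have hu1 : u ≤ E + 1 := by
      rw [hu]
      nlinarith
    have h6 : (1 + t) * s / M.L = ρ * u / (E + 1) := by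
      rw [hsu, hρ]
      ring
    rw [h6]
    rcases le_or_gt (E : ℝ) u with hcase | hcase
    · have h7 : M.armPt x E s = pl (M.ray x E) M.L (u - E) := by
        rw [hsu]
        exact armPt_exit M x hx E u hcase
      rw [h7]
      have h8 := h3 E hE hE' u hcase hu1
      have h9 : pol (M.d x) (ρ * (u - E)) E = H (lin φ (pl (M.ray x E) M.L (u - E))) := by
        rw [hH1 E (u - E) (by linarith) (by linarith), hρ]
        congr 1
        ring
      have h10 := hmod _ _ (by
        rw [norm_pol, abs_of_nonneg (mul_nonneg hρ0.le (by linarith))]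
        nlinarith) h8
      rw [h9, Homeomorph.symm_apply_apply] at h10
      linarith
    · have hm : ⌊u⌋₊ < E := (Nat.floor_lt hu0).2 hcase
      have hm0 : (⌊u⌋₊ : ℝ) ≤ u := Nat.floor_le hu0
      have hm1 : u ≤ ⌊u⌋₊ + 1 := (Nat.lt_floor_add_one u).le
      set m := ⌊u⌋₊ with hmdef
      have h7 : M.armPt x E s =
          pl (M.ray x m) M.L ((M.code x E m : ℝ) * max 0 (1 - |2 * (u - m) - 1|)) := by
        rw [hsu]
        exact armPt_exc M x hx E m hm u hm0 hm1
      rw [h7]
      set τ := max 0 (1 - |2 * (u - m) - 1|) with hτ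
      have hτ0 : 0 ≤ τ := le_max_left _ _
      have hτ1 : τ ≤ 1 := max_le zero_le_one (by linarith [abs_nonneg (2 * (u - m) - 1)])
      have hcode := code_le M hx hE hE' hm
      have hcodeR : (M.code x E m : ℝ) ≤ M.L := by exact_mod_cast hcode
      have hc0 : (0 : ℝ) ≤ M.code x E m := by positivity
      have hct : (M.code x E m : ℝ) * τ ≤ M.L := by nlinarith
      have hct0 : 0 ≤ (M.code x E m : ℝ) * τ := mul_nonneg hc0 hτ0
      have h8 := h4 E m hE hE' hm u hm0 hm1
      rw [← hτ] at h8
      have hDv : D E m = μ * (M.code x E m : ℝ) / M.L := by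
        simp only [hD]
        rw [min_eq_left hcode]
      have h9 : pol (M.d x) (D E m * τ) m =
          H (lin φ (pl (M.ray x m) M.L ((1 - t) * ((M.code x E m : ℝ) * τ)))) := by
        rw [hH1 m _ (mul_nonneg (by linarith) hct0) (by nlinarith), hDv, hμ]
        congr 1
        ring
      have hD1 : D E m ≤ 1 := by
        rw [hDv, div_le_one hL0]
        nlinarith
      have hD0 : 0 ≤ D E m := by
        rw [hDv]
        positivity
      have h10 := hmod _ _ (by
        rw [norm_pol, abs_of_nonneg (mul_nonneg hD0 hτ0)]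
        nlinarith) h8
      rw [h9, Homeomorph.symm_apply_apply] at h10
      have h11 := lin_pl_lip φ (M.ray x m) M.L ((1 - t) * ((M.code x E m : ℝ) * τ))
        ((M.code x E m : ℝ) * τ)
      have h12 : |(1 - t) * ((M.code x E m : ℝ) * τ) - (M.code x E m : ℝ) * τ| ≤ t * M.L := by
        have : (1 - t) * ((M.code x E m : ℝ) * τ) - (M.code x E m : ℝ) * τ =
          -(t * ((M.code x E m : ℝ) * τ)) := by ring
        rw [this, abs_neg, abs_of_nonneg (mul_nonneg ht0.le hct0)]
        exact mul_le_mul_of_nonneg_left hct ht0.le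
      have h13 : ((M.L : ℝ) + 1) * Bd *
          |(1 - t) * ((M.code x E m : ℝ) * τ) - (M.code x E m : ℝ) * τ| ≤
          ((M.L : ℝ) + 1) * Bd * (t * M.L) := mul_le_mul_of_nonneg_left h12 (by positivity)
      have h14 := dist_triangle (H.symm (h' (pol (M.d x) (ρ * u / (E + 1)) E)))
        (lin φ (pl (M.ray x m) M.L ((1 - t) * ((M.code x E m : ℝ) * τ))))
        (lin φ (pl (M.ray x m) M.L ((M.code x E m : ℝ) * τ)))
      linarith

end Pool.Agent.DB
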