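import Pool.Agent.DB.G.Draw

/-!
# DB-G-Good: the model has a good drawing (straight, equally spaced rays)

PLAN. Directions: for `x ∈ M.B` and `y` adjacent to `x`, `y = ray x m 1` (`M.nbr`) and
`a x y := exp (2 π i m / d x)` for such an `m` (chosen; by `ray_inj` two choices are congruent mod `d x`,
so the value is well defined, and `a x` is injective on neighbours: `exp` equal => `m ≡ m'` =>
`ray_per`). For `x ∉ M.B`: `x` has at most two neighbours (by `M.cover`, `x = ray y m j`, `0 < j`;
`j < L`: `ray_int`; `j = L`: `ray_end` (first alternative is excluded, `x ∉ B`), one neighbour).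
Choose `n x` a neighbour if there is one, and put `a x y := 1` if `y = n x`, `-1` otherwise.
(For `0 < j < L` note that `ray x m j ∉ M.B`: a vertex of `B` has at least three neighbours `ray _ 0 1`,
`ray _ 1 1`, `ray _ 2 1` by `three_le`, `ray_adj`, `ray_inj`, but `ray_int` allows only two.)
Apply `exists_drawing` (file Draw). For `x ∈ B` put `u := c x`,
`lam m j := ∑ i < j, l (ray x m i) (ray x m (i+1))`. Induction on `j`: the step from `ray x m i` to
`ray x m (i+1)` is `l * (u * a x (ray x m 1))`, i.e. always in the same direction: at `v = ray x m i`,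
`0 < i < L`, the two neighbours `ray x m (i-1)`, `ray x m (i+1)` (different by `ray_inj`) have
`a v _ = ± 1` with opposite signs, and `c v * a v (ray x m (i-1)) = - (direction of the previous step)`
because `φ (ray x m (i-1)) = φ v + l' * (c v * a v _)` and `φ v = φ (ray x m (i-1)) + l'' * w`, so
`l' * (c v * a v _) = - l'' * w` with unit vectors `c v * a v _`, `w` and positive `l', l''`.
-/

set_option autoImplicit false

namespace Pool.Agent.DB

open Set

/-- the directions -/
private noncomputable def gde (M : Model) (x : M.V) (m : ℕ) : ℂ :=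
  Complex.exp (((2 * Real.pi * m / M.d x : ℝ) : ℂ) * Complex.I)

private theorem gde_norm (M : Model) (x : M.V) (m : ℕ) : ‖gde M x m‖ = 1 := by
  unfold gde
  exact Complex.norm_exp_ofReal_mul_I _

private theorem gde_inj (M : Model) (x : M.V) (hd : 0 < M.d x) (m m' : ℕ) (hm : m < M.d x)
    (hm' : m' < M.d x) (h : gde M x m = gde M x m') : m = m' := by
  unfold gde at h
  rw [Complex.exp_eq_exp_iff_exists_int] at h
  obtain ⟨n, hn⟩ := h
  have hd' : (M.d x : ℝ) ≠ 0 := by positivity
  have h1 : (((2 * Real.pi * m / M.d x : ℝ) : ℂ)) =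
      ((2 * Real.pi * m' / M.d x + n * (2 * Real.pi) : ℝ) : ℂ) := by
    have h2 : (((2 * Real.pi * m / M.d x : ℝ) : ℂ)) * Complex.I =
      ((2 * Real.pi * m' / M.d x + n * (2 * Real.pi) : ℝ) : ℂ) * Complex.I := by
      rw [hn]
      push_cast
      ring
    exact mul_right_cancel₀ Complex.I_ne_zero h2
  have h3 : 2 * Real.pi * m / M.d x = 2 * Real.pi * m' / M.d x + n * (2 * Real.pi) := by
    exact_mod_cast h1
  field_simp at h3
  have h4 : (m : ℝ) = m' + n * M.d x := by
    have hpi := Real.pi_pos.ne'
    linarith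
  have h5 : (m : ℤ) = m' + n * M.d x := by exact_mod_cast h4
  have h6 : n = 0 := by
    by_contra hne
    rcases lt_or_gt_of_ne hne with h7 | h7
    · have h8 : n * (M.d x : ℤ) ≤ (-1) * M.d x := by
        apply mul_le_mul_of_nonneg_right (by omega) (by positivity)
      omega
    · have h8 : 1 * (M.d x : ℤ) ≤ n * M.d x := by
        apply mul_le_mul_of_nonneg_right (by omega) (by positivity)
      omega
  rw [h6] at h5
  omega

private theorem gde_congr (M : Model) (x : M.V) (hd : 0 < M.d x) (m m' : ℕ)
    (h : m ≡ m' [MOD M.d x]) : gde M x m = gde M x m' := by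
  unfold gde
  rw [Complex.exp_eq_exp_iff_exists_int]
  have hd' : (M.d x : ℂ) ≠ 0 := by exact_mod_cast hd.ne'
  have h1 := (Nat.modEq_iff_dvd.mp h)
  obtain ⟨n, hn⟩ := h1
  refine ⟨-n, ?_⟩
  have h2 : (m' : ℂ) = m + M.d x * n := by
    have : (m' : ℤ) = m + M.d x * n := by omega
    exact_mod_cast this
  push_cast
  rw [h2]
  field_simp
  ring

private theorem gd_Lpos (M : Model) : 0 < M.L := by
  obtain ⟨x, hx⟩ := M.ne
  have h1 := M.long x hx
  have h2 := M.three_le x hx
  have h3 : 0 < (M.d x ^ 2 + M.d x + 1) * M.d x := by positivity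
  omega

private theorem gd_two (M : Model) (x : M.V) (hx : x ∉ M.B) :
    ∃ p q : M.V, ∀ v, M.G.Adj x v → v = p ∨ v = q := by
  obtain ⟨y, hy, m, j, hj, rfl⟩ := M.cover x
  rcases Nat.eq_zero_or_pos j with rfl | hj0
  · rw [M.ray_zero y hy] at hx
    exact absurd hy hx
  · rcases Nat.lt_or_eq_of_le hj with h | rfl
    · exact ⟨_, _, M.ray_int y hy m j hj0 h⟩
    · rcases M.ray_end y hy m with h | h
      · exact absurd h.1 hx
      · exact ⟨_, M.ray y m (M.L - 1), fun v hv => Or.inl (h v hv)⟩

private theorem gd_notB (M : Model) (x : M.V) (hx : x ∈ M.B) (m j : ℕ) (hj : 0 < j)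
    (hjL : j < M.L) : M.ray x m j ∉ M.B := by
  intro hv
  have h3 := M.three_le _ hv
  have hL := gd_Lpos M
  have hadj : ∀ k, M.G.Adj (M.ray x m j) (M.ray (M.ray x m j) k 1) := by
    intro k
    have := M.ray_adj _ hv k 0 hL
    rwa [M.ray_zero _ hv] at this
  have hne : ∀ k k', k < 3 → k' < 3 → k ≠ k' →
      M.ray (M.ray x m j) k 1 ≠ M.ray (M.ray x m j) k' 1 := by
    intro k k' hk hk' hkk h
    have := (M.ray_inj _ hv k 1 k' 1 hL hL h).2
    rcases this with h1 | h1
    · omega
    · apply hkk
      exact Nat.ModEq.eq_of_lt_of_lt h1 (by omega) (by omega)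
  have h0 := M.ray_int x hx m j hj hjL _ (hadj 0)
  have h1 := M.ray_int x hx m j hj hjL _ (hadj 1)
  have h2 := M.ray_int x hx m j hj hjL _ (hadj 2)
  have n01 := hne 0 1 (by omega) (by omega) (by omega)
  have n02 := hne 0 2 (by omega) (by omega) (by omega)
  have n12 := hne 1 2 (by omega) (by omega) (by omega)
  rcases h0 with h0 | h0 <;> rcases h1 with h1 | h1 <;> rcases h2 with h2 | h2
  · exact n01 (h0.trans h1.symm)
  · exact n01 (h0.trans h1.symm)
  · exact n02 (h0.trans h2.symm)
  · exact n12 (h1.trans h2.symm)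
  · exact n12 (h1.trans h2.symm)
  · exact n02 (h0.trans h2.symm)
  · exact n01 (h0.trans h1.symm)
  · exact n01 (h0.trans h1.symm)

private theorem gd_dir (M : Model) : ∃ a : M.V → M.V → ℂ,
    (∀ x y, M.G.Adj x y → ‖a x y‖ = 1) ∧
    (∀ x y z, M.G.Adj x y → M.G.Adj x z → a x y = a x z → y = z) ∧
    (∀ x ∈ M.B, ∀ m, a x (M.ray x m 1) = gde M x m) ∧
    (∀ x, x ∉ M.B → ∀ y z, M.G.Adj x y → M.G.Adj x z → y ≠ z → a x z = - a x y) := by
  classical
  have hB : ∀ x : M.V, ∀ y : M.V, ∃ m : ℕ, (x ∈ M.B ∧ M.G.Adj x y) → (m < M.d x ∧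
      y = M.ray x m 1) := by
    intro x y
    by_cases h : x ∈ M.B ∧ M.G.Adj x y
    · obtain ⟨m, hm⟩ := M.nbr x h.1 y h.2
      exact ⟨m, fun _ => hm⟩
    · exact ⟨0, fun h' => absurd h' h⟩
  choose mm hmm using hB
  have hN : ∀ x : M.V, ∃ n : M.V, (∃ y, M.G.Adj x y) → M.G.Adj x n := by
    intro x
    by_cases h : ∃ y, M.G.Adj x y
    · obtain ⟨y, hy⟩ := h
      exact ⟨y, fun _ => hy⟩
    · exact ⟨x, fun h' => absurd h' h⟩
  choose nn hnn using hN
  refine ⟨fun x y => if x ∈ M.B then gde M x (mm x y) else if y = nn x then 1 else -1,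
    ?_, ?_, ?_, ?_⟩
  · intro x y hxy
    dsimp only
    split_ifs
    · exact gde_norm _ _ _
    · simp
    · simp
  · intro x y z hy hz h
    dsimp only at h
    by_cases hx : x ∈ M.B
    · rw [if_pos hx, if_pos hx] at h
      have h1 := hmm x y ⟨hx, hy⟩
      have h2 := hmm x z ⟨hx, hz⟩
      have h3 := gde_inj M x (by have := M.three_le x hx; omega) _ _ h1.1 h2.1 h
      rw [h1.2, h2.2, h3]
    · rw [if_neg hx, if_neg hx] at h
      obtain ⟨p, q, hpq⟩ := gd_two M x hx
      have hn := hnn x ⟨y, hy⟩
      by_cases h1 : y = nn x <;> by_cases h2 : z = nn x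
      · rw [h1, h2]
      · rw [if_pos h1, if_neg h2] at h
        norm_num at h
      · rw [if_neg h1, if_pos h2] at h
        norm_num at h
      · rcases hpq _ hn with h3 | h3 <;> rcases hpq _ hy with h4 | h4 <;>
          rcases hpq _ hz with h5 | h5
        · exact h4.trans h5.symm
        · exact absurd (h4.trans h3.symm) h1
        · exact absurd (h5.trans h3.symm) h2
        · exact h4.trans h5.symm
        · exact h4.trans h5.symm
        · exact absurd (h5.trans h3.symm) h2
        · exact absurd (h4.trans h3.symm) h1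
        · exact h4.trans h5.symm
  · intro x hx m
    dsimp only
    rw [if_pos hx]
    have hadj : M.G.Adj x (M.ray x m 1) := by
      have := M.ray_adj _ hx m 0 (gd_Lpos M)
      rwa [M.ray_zero _ hx] at this
    have h1 := hmm x (M.ray x m 1) ⟨hx, hadj⟩
    have h2 := (M.ray_inj x hx m 1 _ 1 (gd_Lpos M) (gd_Lpos M) h1.2).2
    rcases h2 with h2 | h2
    · omega
    · exact (gde_congr M x (by have := M.three_le x hx; omega) _ _ h2).symm
  · intro x hx y z hy hz hyz
    dsimp only
    rw [if_neg hx, if_neg hx]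
    obtain ⟨p, q, hpq⟩ := gd_two M x hx
    have hn := hnn x ⟨y, hy⟩
    by_cases h1 : y = nn x
    · rw [if_pos h1, if_neg (fun h2 => hyz (h1.trans h2.symm))]
    · by_cases h2 : z = nn x
      · rw [if_pos h2, if_neg h1, neg_neg]
      · exfalso
        rcases hpq _ hn with h3 | h3 <;> rcases hpq _ hy with h4 | h4 <;>
          rcases hpq _ hz with h5 | h5
        · exact hyz (h4.trans h5.symm)
        · exact absurd (h4.trans h3.symm) h1
        · exact absurd (h5.trans h3.symm) h2
        · exact hyz (h4.trans h5.symm)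
        · exact hyz (h4.trans h5.symm)
        · exact absurd (h5.trans h3.symm) h2
        · exact absurd (h4.trans h3.symm) h1
        · exact hyz (h4.trans h5.symm)

private theorem gd_opp (r s : ℝ) (hr : 0 < r) (hs : 0 < s) (z w : ℂ) (hz : ‖z‖ = 1)
    (hw : ‖w‖ = 1) (h : (r : ℂ) * z = - ((s : ℂ) * w)) : z = - w := by
  have h1 : ‖(r : ℂ) * z‖ = ‖- ((s : ℂ) * w)‖ := by rw [h]
  rw [norm_neg, norm_mul, norm_mul, hz, hw, mul_one, mul_one, Complex.norm_of_nonneg hr.le,
    Complex.norm_of_nonneg hs.le] at h1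
  have hr' : (r : ℂ) ≠ 0 := by exact_mod_cast hr.ne'
  rw [← h1, ← mul_neg] at h
  exact mul_left_cancel₀ hr' h

theorem exists_good (M : Model) : ∃ φ : M.V → ℂ, Good' M φ := by
  obtain ⟨a, ha, hinj, hB, hN⟩ := gd_dir M
  obtain ⟨φ, c, l, hc, hl, hφ⟩ := exists_drawing M.G M.tree a ha hinj
  refine ⟨φ, hφ, ?_⟩
  intro x hx
  have hadj := M.ray_adj x hx
  refine ⟨c x, fun m j => ∑ i ∈ Finset.range j, l (M.ray x m i) (M.ray x m (i + 1)), hc x,
    fun m => by simp, ?_, ?_⟩
  · intro m j hj
    dsimp only
    rw [Finset.sum_range_succ]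
    have := (hl _ _ (hadj m j hj)).1
    linarith
  · intro m
    have hw : ‖c x * gde M x m‖ = 1 := by rw [norm_mul, hc, gde_norm, mul_one]
    have key : ∀ j, j < M.L → c (M.ray x m j) * a (M.ray x m j) (M.ray x m (j + 1)) =
        c x * gde M x m := by
      intro j
      induction j with
      | zero =>
        intro _
        rw [M.ray_zero x hx, zero_add, hB x hx]
      | succ j ih =>
        intro hj
        have ih' := ih (by omega)
        have h1 := hl _ _ (hadj m j (by omega))
        have h2 := hl _ _ (hadj m j (by omega)).symm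
        have hvB := gd_notB M x hx m (j + 1) (by omega) hj
        have hpq : M.ray x m j ≠ M.ray x m (j + 1 + 1) := by
          intro h
          have := (M.ray_inj x hx m j m (j + 1 + 1) (by omega) (by omega) h).1
          omega
        have h3 := hN _ hvB _ _ (hadj m j (by omega)).symm (hadj m (j + 1) hj) hpq
        have h4 : c (M.ray x m (j + 1)) * a (M.ray x m (j + 1)) (M.ray x m j) =
            - (c x * gde M x m) := by
          refine gd_opp _ _ h2.1 h1.1 _ _ ?_ hw ?_
          · rw [norm_mul, hc, ha _ _ (hadj m j (by omega)).symm, mul_one]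
          · have h5 := h1.2
            have h6 := h2.2
            rw [ih'] at h5
            linear_combination (-1 : ℂ) * h5 - h6
        rw [h3, mul_neg, h4, neg_neg]
    intro j
    induction j with
    | zero =>
      intro _
      rw [M.ray_zero x hx]
      simp
    | succ j ih =>
      intro hj
      have h1 := (hl _ _ (hadj m j (by omega))).2
      rw [h1, key j (by omega), ih (by omega)]
      dsimp only
      rw [Finset.sum_range_succ]
      unfold gde
      push_cast
      ring

end Pool.Agent.DB
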