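import Pool.Agent.DB.Defs

/-!
# DB part G: linear extension of a drawing, definition of a good drawing
-/

set_option autoImplicit false

namespace Pool.Agent.DB

open Set

/-- the linear extension of a map on the vertices -/
noncomputable def lin {V : Type} [Fintype V] (φ : V → ℂ) (p : V → ℝ) : ℂ := ∑ v, (p v : ℂ) * φ v

theorem lin_continuous {V : Type} [Fintype V] (φ : V → ℂ) : Continuous (lin φ) := by
  unfold lin
  fun_prop

theorem lin_add {V : Type} [Fintype V] (φ : V → ℂ) (p q : V → ℝ) :
    lin φ (p + q) = lin φ p + lin φ q := by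
  simp [lin, add_mul, Finset.sum_add_distrib]

theorem lin_smul {V : Type} [Fintype V] (φ : V → ℂ) (t : ℝ) (p : V → ℝ) :
    lin φ (t • p) = (t : ℂ) * lin φ p := by
  simp [lin, Finset.mul_sum, mul_assoc]

theorem lin_ev {V : Type} [Fintype V] [DecidableEq V] (φ : V → ℂ) (a : V) :
    lin φ (ev a) = φ a := by
  unfold lin ev
  rw [Finset.sum_eq_single a]
  · simp
  · intro b _ hb
    simp [Pi.single_eq_of_ne hb]
  · simp

theorem lin_sum {V ι : Type} [Fintype V] (φ : V → ℂ) (s : Finset ι) (p : ι → V → ℝ) :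
    lin φ (∑ i ∈ s, p i) = ∑ i ∈ s, lin φ (p i) := by
  classical
  induction s using Finset.induction_on with
  | empty => simp [lin]
  | insert a s ha ih => rw [Finset.sum_insert ha, Finset.sum_insert ha, lin_add, ih]

/-- a drawing of the model in the plane: linear on the edges, injective, all rays at a branch
vertex `x` are straight and equally spaced -/
structure Good' (M : Model) (φ : M.V → ℂ) : Prop where
  inj : InjOn (lin φ) (real M.G)
  ray : ∀ x ∈ M.B, ∃ (u : ℂ) (lam : ℕ → ℕ → ℝ), ‖u‖ = 1 ∧ (∀ m, lam m 0 = 0) ∧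
    (∀ m j, j < M.L → lam m j < lam m (j + 1)) ∧
    ∀ m j, j ≤ M.L → φ (M.ray x m j) = φ x + (lam m j : ℂ) * (u * Complex.exp (((2 * Real.pi * m / M.d x : ℝ) : ℂ) * Complex.I))

end Pool.Agent.DB
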