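import Pool.Agent.DB.G.GoodD
import Pool.Agent.DB.G.Fx
import Pool.Agent.Helper70.PL.Embed
import Pool.Agent.DB.Top.Cpt

/-!
# DB part G: the inverse limit of the twist maps is planar
-/

set_option autoImplicit false

namespace Pool.Agent.DB

open Set Pool.Agent.PL Topology

/-- planarity of the inverse limit, from the elementary properties of the twist maps -/
theorem G_main_of (M : Model) (x : ℕ → M.V) (hB : ∀ k, x k ∈ M.B)
    (hmaps : ∀ k, MapsTo (M.f (x k)) (real M.G) (real M.G))
    (hcont : ∀ k, ContinuousOn (M.f (x k)) (real M.G)) :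
    ∃ φ : (ℕ → M.V → ℝ) → EuclideanSpace ℝ (Fin 2),
      ContinuousOn φ (M.Lim x) ∧ InjOn φ (M.Lim x) := by
  obtain ⟨φ, hφ⟩ := exists_good M
  have hcs : CompactSpace (real M.G) := isCompact_iff_compactSpace.1 (real_isCompact M.G)
  let f : ∀ _ : ℕ, real M.G → real M.G := fun k => (hmaps k).restrict _ _ _
  let e : ∀ _ : ℕ, real M.G → ℂ := fun _ p => lin φ p.1
  have he : ∀ n, Continuous (e n) := fun _ => (lin_continuous φ).comp continuous_subtype_val
  have hei : ∀ n, Function.Injective (e n) := fun _ p q h => Subtype.ext (hφ.inj p.2 q.2 h)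
  have hf : ∀ n, Continuous (f n) := fun k => (hcont k).mapsToRestrict (hmaps k)
  have hp : ∀ n, Planar (e (n + 1)) (e n) (f n) := by
    intro n δ hδ
    obtain ⟨h, hh⟩ := f_planar M φ hφ (x n) (hB n) δ hδ
    exact ⟨h, fun p => hh p.1 p.2⟩
  obtain ⟨Φ, hΦ⟩ := exists_embedding (T := fun _ => real M.G) he hei (f := f) hf hp
  -- comparison of the two inverse limits
  let j : M.Lim x → Lim f := fun z => ⟨fun n => ⟨z.1 n, (z.2 n).1⟩, fun n =>
    Subtype.ext (z.2 n).2.symm⟩
  have hj : Continuous j := by
    refine Continuous.subtype_mk (continuous_pi fun n => ?_) _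
    exact ((continuous_apply n).comp continuous_subtype_val).subtype_mk _
  have hji : Function.Injective j := by
    intro z w h
    refine Subtype.ext (funext fun n => ?_)
    have h1 : (j z).1 n = (j w).1 n := by rw [h]
    exact congrArg Subtype.val h1
  classical
  let Ψ : M.Lim x → EuclideanSpace ℝ (Fin 2) := fun z => Complex.orthonormalBasisOneI.repr (Φ (j z))
  have hΨ : Continuous Ψ :=
    Complex.orthonormalBasisOneI.repr.continuous.comp (hΦ.continuous.comp hj)
  have hΨi : Function.Injective Ψ :=
    Complex.orthonormalBasisOneI.repr.injective.comp (hΦ.injective.comp hji)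
  refine ⟨fun z => if h : z ∈ M.Lim x then Ψ ⟨z, h⟩ else 0, ?_, ?_⟩
  · rw [continuousOn_iff_continuous_domRestrict]
    have : (M.Lim x).domRestrict (fun z => if h : z ∈ M.Lim x then Ψ ⟨z, h⟩ else 0) = Ψ := by
      funext z
      simp only [domRestrict_apply]
      rw [dif_pos z.2]
    rw [this]
    exact hΨ
  · intro z hz w hw h
    simp only at h
    rw [dif_pos hz, dif_pos hw] at h
    exact congrArg Subtype.val (hΨi h)

end Pool.Agent.DB
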